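import Mathlib

/-!
# One-sided random context grammars

Definitions used in the statement about `MP_05b2f7_lc`.
-/

namespace Pool.Agent.H80.LRC

/-- A random context rule `(A → x, U, W)` over the nonterminals `N` and the terminals `T`:
`lhs = A ∈ N`, `rhs = x ∈ (N ∪ T)*` (erasing rules `x = []` are allowed), `perm = U ⊆ N` and
`forb = W ⊆ N`.  The total alphabet `V = N ∪ T` is the disjoint union `N ⊕ T`. -/
structure RCRule (N T : Type) where
  /-- the nonterminal `A` that is rewritten -/
  lhs : N
  /-- the string `x` that replaces it -/
  rhs : List (N ⊕ T)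
  /-- the permitting context `U` -/
  perm : Set N
  /-- the forbidding context `W` -/
  forb : Set N

/-- The context condition of a rule on the string `y`: `U ⊆ alph(y)` and `W ∩ alph(y) = ∅`. -/
def RCRule.Ok {N T : Type} (r : RCRule N T) (y : List (N ⊕ T)) : Prop :=
  (∀ A ∈ r.perm, (Sum.inl A : N ⊕ T) ∈ y) ∧ (∀ A ∈ r.forb, (Sum.inl A : N ⊕ T) ∉ y)

/-- A one-sided random context grammar `(N, T, P_L, P_R, S)` with terminal alphabet `T`. -/
structure ORCGrammar (T : Type) where
  /-- nonterminals -/
  N : Type
  /-- there are finitely many nonterminals -/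
  finite_N : Finite N
  /-- start symbol -/
  start : N
  /-- left random context rules -/
  PL : Set (RCRule N T)
  /-- right random context rules -/
  PR : Set (RCRule N T)
  /-- there are finitely many left random context rules -/
  finite_PL : PL.Finite
  /-- there are finitely many right random context rules -/
  finite_PR : PR.Finite

/-- The direct derivation relation: `uAv ⇒ uxv` by a rule `(A → x, U, W)` that is either a left
random context rule whose context condition holds on `u`, or a right random context rule whose
context condition holds on `v`. -/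
def ORCGrammar.Step {T : Type} (G : ORCGrammar T) (x y : List (G.N ⊕ T)) : Prop :=
  ∃ (u v : List (G.N ⊕ T)) (r : RCRule G.N T),
    x = u ++ [Sum.inl r.lhs] ++ v ∧ y = u ++ r.rhs ++ v ∧
      ((r ∈ G.PL ∧ r.Ok u) ∨ (r ∈ G.PR ∧ r.Ok v))

/-- The generated language: all `w ∈ T*` with `S ⇒* w`. -/
def ORCGrammar.language {T : Type} (G : ORCGrammar T) : Language T :=
  {w | Relation.ReflTransGen G.Step [Sum.inl G.start] (w.map Sum.inr)}

end Pool.Agent.H80.LRC
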