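import Pool.Agent.H80.LRC.Defs

/-!
# Rotating queue machines and left random context grammars

A rotating queue machine reads the first letter of a queue and appends one letter to its end;
a letter of the second kind (a final letter) at the front of the queue is output.
We show that every language of a rotating queue machine is generated by a left random context
grammar.
-/

namespace Pool.Agent.H80.LRC

open Relation

/-- Rotating queue machine. -/
structure Rot (T : Type) where
  Q : Type
  Γ : Type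
  finQ : Finite Q
  finΓ : Finite Γ
  δ : Q → Γ → (Γ ⊕ Option T) → Q → Prop
  q0 : Q
  qf : Q
  z : Γ

/-- Output of a letter. -/
def out {Γ T : Type} : Γ ⊕ Option T → List T
  | Sum.inl _ => []
  | Sum.inr none => []
  | Sum.inr (some t) => [t]

/-- Reachable configurations (output so far, state, queue). -/
inductive Rot.Reach {T : Type} (M : Rot T) : List T → M.Q → List (M.Γ ⊕ Option T) → Prop
  | init (n : ℕ) : M.Reach [] M.q0 (List.replicate n (Sum.inl M.z))
  | read {w q c u d q'} : M.Reach w q (Sum.inl c :: u) → M.δ q c d q' → M.Reach w q' (u ++ [d])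
  | pop {w q o u} : M.Reach w q (Sum.inr o :: u) →
      M.Reach (w ++ out (Γ := M.Γ) (Sum.inr o)) q u

/-- The language of a rotating queue machine. -/
def Rot.lang {T : Type} (M : Rot T) : Language T := {w | M.Reach w M.qf []}

/-- Nonterminals of the simulating grammar. -/
inductive NT (Q Γ T : Type)
  | s
  | st (c : Γ ⊕ Option T)
  | ac (c : Γ ⊕ Option T)
  | m (q : Q)
  | p (q : Q)
  | b
  | b'

instance {Q Γ T : Type} [Finite Q] [Finite Γ] [Finite T] : Finite (NT Q Γ T) := by
  let f : (Unit ⊕ (Γ ⊕ Option T)) ⊕ ((Γ ⊕ Option T) ⊕ (Q ⊕ (Q ⊕ (Unit ⊕ Unit)))) → NT Q Γ T :=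
    fun x => match x with
      | Sum.inl (Sum.inl _) => .s
      | Sum.inl (Sum.inr c) => .st c
      | Sum.inr (Sum.inl c) => .ac c
      | Sum.inr (Sum.inr (Sum.inl q)) => .m q
      | Sum.inr (Sum.inr (Sum.inr (Sum.inl q))) => .p q
      | Sum.inr (Sum.inr (Sum.inr (Sum.inr (Sum.inl _)))) => .b
      | Sum.inr (Sum.inr (Sum.inr (Sum.inr (Sum.inr _)))) => .b'
  refine Finite.of_surjective f ?_
  rintro (_ | c | c | q | q | _ | _)
  · exact ⟨Sum.inl (Sum.inl ()), rfl⟩
  · exact ⟨Sum.inl (Sum.inr c), rfl⟩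
  · exact ⟨Sum.inr (Sum.inl c), rfl⟩
  · exact ⟨Sum.inr (Sum.inr (Sum.inl q)), rfl⟩
  · exact ⟨Sum.inr (Sum.inr (Sum.inr (Sum.inl q))), rfl⟩
  · exact ⟨Sum.inr (Sum.inr (Sum.inr (Sum.inr (Sum.inl ())))), rfl⟩
  · exact ⟨Sum.inr (Sum.inr (Sum.inr (Sum.inr (Sum.inr ())))), rfl⟩

section

variable {T : Type} (M : Rot T)

/-- shorthand for the nonterminals -/
abbrev Rot.NTs : Type := NT M.Q M.Γ T

/-- letters -/
abbrev Rot.Let : Type := M.Γ ⊕ Option T

/-- no letter (stored or active) -/
def letForb : Set M.NTs := {A | ∃ c, A = NT.st c ∨ A = NT.ac c}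

/-- no active letter -/
def acForb : Set M.NTs := {A | ∃ c, A = NT.ac c}

/-- The rules. -/
inductive IsRule : RCRule M.NTs T → Prop
  | gen : IsRule ⟨.s, [.inl (.st (.inl M.z)), .inl .s, .inl .b], ∅, ∅⟩
  | start : IsRule ⟨.s, [.inl (.m M.q0)], ∅, ∅⟩
  | act (c : M.Let) : IsRule ⟨.st c, [.inl (.ac c)], ∅, letForb M⟩
  | deact (c : M.Let) : IsRule ⟨.ac c, (out c).map .inr, ∅, ∅⟩
  | read (q : M.Q) (c : M.Γ) (d : M.Let) (q' : M.Q) (h : M.δ q c d q') :
      IsRule ⟨.m q, [.inl (.st d), .inl (.p q')], {.ac (.inl c)}, ∅⟩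
  | unp (q : M.Q) : IsRule ⟨.p q, [.inl (.m q)], ∅, acForb M⟩
  | erase : IsRule ⟨.m M.qf, [], ∅, ∅⟩
  | bact (o : Option T) : IsRule ⟨.b, [.inl .b'], {.ac (.inr o)}, {.b, .b'}⟩
  | bdeact : IsRule ⟨.b', [], ∅, acForb M⟩

theorem finite_rules [Finite T] : {r | IsRule M r}.Finite := by
  have := M.finQ
  have := M.finΓ
  have h : {r | IsRule M r} ⊆
      ({⟨.s, [.inl (.st (.inl M.z)), .inl .s, .inl .b], ∅, ∅⟩, ⟨.s, [.inl (.m M.q0)], ∅, ∅⟩,
        ⟨.m M.qf, [], ∅, ∅⟩, ⟨.b', [], ∅, acForb M⟩} : Set (RCRule M.NTs T)) ∪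
      (Set.range (fun c : M.Let =>
        (⟨.st c, [.inl (.ac c)], ∅, letForb M⟩ : RCRule M.NTs T)) ∪
      (Set.range (fun c : M.Let =>
        (⟨.ac c, (out c).map .inr, ∅, ∅⟩ : RCRule M.NTs T)) ∪
      (Set.range (fun x : M.Q × M.Γ × M.Let × M.Q =>
        (⟨.m x.1, [.inl (.st x.2.2.1), .inl (.p x.2.2.2)], {.ac (.inl x.2.1)}, ∅⟩ :
          RCRule M.NTs T)) ∪
      (Set.range (fun q : M.Q =>
        (⟨.p q, [.inl (.m q)], ∅, acForb M⟩ : RCRule M.NTs T)) ∪
      (Set.range (fun o : Option T =>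
        (⟨.b, [.inl .b'], {.ac (.inr o)}, {.b, .b'}⟩ : RCRule M.NTs T))))))) := by
    rintro r hr
    cases hr with
    | gen => left; simp
    | start => left; simp
    | act c => right; left; exact ⟨c, rfl⟩
    | deact c => right; right; left; exact ⟨c, rfl⟩
    | read q c d q' h => right; right; right; left; exact ⟨(q, c, d, q'), rfl⟩
    | unp q => right; right; right; right; left; exact ⟨q, rfl⟩
    | erase => left; simp
    | bact o => right; right; right; right; right; exact ⟨o, rfl⟩
    | bdeact => left; simp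
  refine Set.Finite.subset ?_ h
  refine Set.Finite.union (by simp) ?_
  refine Set.Finite.union (Set.finite_range _) ?_
  refine Set.Finite.union (Set.finite_range _) ?_
  refine Set.Finite.union (Set.finite_range _) ?_
  refine Set.Finite.union (Set.finite_range _) (Set.finite_range _)

/-- The left random context grammar simulating `M`. -/
def Rot.grammar [Finite T] : ORCGrammar T where
  N := M.NTs
  finite_N := by
    have := M.finQ
    have := M.finΓ
    infer_instance
  start := .s
  PL := {r | IsRule M r}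
  PR := ∅
  finite_PL := finite_rules M
  finite_PR := Set.finite_empty

/-- Control part of a sentential form. -/
inductive Ctl (Q : Type)
  | s
  | m (q : Q)
  | p (q : Q)
  | e

/-- string of the control part -/
def Ctl.str {M : Rot T} : Ctl M.Q → List (M.NTs ⊕ T)
  | .s => [.inl .s]
  | .m q => [.inl (.m q)]
  | .p q => [.inl (.p q)]
  | .e => []

/-- string of the active part -/
def actStr {M : Rot T} : Option M.Let → List (M.NTs ⊕ T)
  | none => []
  | some c => [.inl (.ac c)]

/-- string of the flag -/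
def betaStr {M : Rot T} : Bool → List (M.NTs ⊕ T)
  | true => [.inl .b']
  | false => []

/-- Shape of the sentential forms. -/
def form {M : Rot T} (w : List T) (A : Option M.Let) (u : List M.Let) (X : Ctl M.Q) (β : Bool) (k : ℕ) :
    List (M.NTs ⊕ T) :=
  w.map .inr ++ (actStr A ++ (u.map (fun c => .inl (.st c)) ++ (X.str ++
    (betaStr β ++ List.replicate k (.inl .b)))))

end

/-- the first occurrence of a property in a list is unique -/
theorem first_occ {α : Type} (p : α → Prop) {l₁ l₂ r₁ r₂ : List α} {x y : α}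
    (h : l₁ ++ x :: r₁ = l₂ ++ y :: r₂) (h₁ : ∀ a ∈ l₁, ¬ p a) (h₂ : ∀ a ∈ l₂, ¬ p a)
    (hx : p x) (hy : p y) : l₁ = l₂ ∧ x = y ∧ r₁ = r₂ := by
  induction l₁ generalizing l₂ with
  | nil =>
    cases l₂ with
    | nil => simpa using h
    | cons b l₂ =>
      simp only [List.nil_append, List.cons_append, List.cons.injEq] at h
      exact absurd (h.1 ▸ hx) (h₂ b (by simp))
  | cons a l₁ ih =>
    cases l₂ with
    | nil =>
      simp only [List.nil_append, List.cons_append, List.cons.injEq] at h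
      exact absurd (h.1 ▸ hy) (h₁ a (by simp))
    | cons b l₂ =>
      simp only [List.cons_append, List.cons.injEq] at h
      obtain ⟨rfl, h⟩ := h
      obtain ⟨h1, h2⟩ := ih h (fun a ha => h₁ a (by simp [ha])) (fun a ha => h₂ a (by simp [ha]))
      exact ⟨by rw [h1], h2⟩

section

variable {T : Type} (M : Rot T)

/-- Abstract states. -/
structure AS where
  w : List T
  A : Option M.Let
  u : List M.Let
  X : Ctl M.Q
  β : Bool
  k : ℕ

variable {M}

/-- the sentential form of an abstract state -/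
def AS.form (s : AS M) : List (M.NTs ⊕ T) := LRC.form s.w s.A s.u s.X s.β s.k

/-- The abstract transitions. -/
inductive AStep : AS M → AS M → Prop
  | gen {w A u k} : AStep ⟨w, A, u, .s, false, k⟩ ⟨w, A, u ++ [.inl M.z], .s, false, k + 1⟩
  | start {w A u β k} : AStep ⟨w, A, u, .s, β, k⟩ ⟨w, A, u, .m M.q0, β, k⟩
  | act {w c u X β k} : AStep ⟨w, none, c :: u, X, β, k⟩ ⟨w, some c, u, X, β, k⟩
  | deact {w c u X β k} : AStep ⟨w, some c, u, X, β, k⟩ ⟨w ++ out c, none, u, X, β, k⟩
  | read {w c u β k q q' d} (h : M.δ q c d q') :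
      AStep ⟨w, some (.inl c), u, .m q, β, k⟩ ⟨w, some (.inl c), u ++ [d], .p q', β, k⟩
  | unp {w u q β k} : AStep ⟨w, none, u, .p q, β, k⟩ ⟨w, none, u, .m q, β, k⟩
  | erase {w A u β k} : AStep ⟨w, A, u, .m M.qf, β, k⟩ ⟨w, A, u, .e, β, k⟩
  | bact {w o u X k} :
      AStep ⟨w, some (.inr o), u, X, false, k + 1⟩ ⟨w, some (.inr o), u, X, true, k⟩
  | bdeact {w u X k} : AStep ⟨w, none, u, X, true, k⟩ ⟨w, none, u, X, false, k⟩

/-- In the generating phase there are only letters `M.z` and no flag. -/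
def AS.WF (s : AS M) : Prop :=
  s.X = .s → s.β = false ∧ (∀ c ∈ s.u, c = .inl M.z) ∧ (∀ c ∈ s.A, c = .inl M.z)

theorem AStep.wf {s s' : AS M} (h : AStep s s') (hs : s.WF) : s'.WF := by
  cases h with
  | gen =>
    intro _
    obtain ⟨h1, h2, h3⟩ := hs rfl
    refine ⟨rfl, ?_, h3⟩
    intro c hc
    simp only [List.mem_append, List.mem_singleton] at hc
    rcases hc with hc | hc
    · exact h2 c hc
    · exact hc
  | start => intro h; simp at h
  | act =>
    intro h
    obtain ⟨h1, h2, h3⟩ := hs h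
    exact ⟨h1, fun c hc => h2 c (by simp [hc]), fun c hc => h2 c (by simp at hc; simp [hc])⟩
  | deact =>
    intro h
    obtain ⟨h1, h2, h3⟩ := hs h
    exact ⟨h1, h2, by simp⟩
  | read => intro h; simp at h
  | unp => intro h; simp at h
  | erase => intro h; simp at h
  | bact =>
    intro h
    obtain ⟨h1, h2, h3⟩ := hs h
    have := h3 _ (by simp; rfl)
    simp at this
  | bdeact =>
    intro h
    obtain ⟨h1, h2, h3⟩ := hs h
    exact ⟨rfl, h2, h3⟩

theorem mem_actStr {x : M.NTs ⊕ T} {A : Option M.Let} :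
    x ∈ (actStr A : List (M.NTs ⊕ T)) ↔ ∃ c, A = some c ∧ x = .inl (.ac c) := by
  cases A <;> simp [actStr]

theorem mem_betaStr {x : M.NTs ⊕ T} {β : Bool} :
    x ∈ (betaStr β : List (M.NTs ⊕ T)) ↔ β = true ∧ x = .inl .b' := by
  cases β <;> simp [betaStr]

theorem not_b_of_mem_pre {w : List T} {A : Option M.Let} {u : List M.Let} {X : Ctl M.Q}
    {x : M.NTs ⊕ T}
    (h : x ∈ w.map .inr ++ (actStr A ++ (u.map (fun c => .inl (.st c)) ++ X.str))) :
    ¬ (x = (Sum.inl .b : M.NTs ⊕ T) ∨ x = .inl .b') := by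
  simp only [List.mem_append, List.mem_map, mem_actStr] at h
  rcases h with ⟨t, -, rfl⟩ | ⟨c, -, rfl⟩ | ⟨c, -, rfl⟩ | h
  · simp
  · simp
  · simp
  · cases X <;> simp [Ctl.str] at h <;> subst h <;> simp

variable (M) in
/-- Direct derivations by the rules. -/
def GStep (x y : List (M.NTs ⊕ T)) : Prop :=
  ∃ (u0 v0 : List (M.NTs ⊕ T)) (r : RCRule M.NTs T),
      IsRule M r ∧ x = u0 ++ Sum.inl r.lhs :: v0 ∧ y = u0 ++ r.rhs ++ v0 ∧ r.Ok u0

theorem grammar_step_iff [Finite T] (x y : List (M.NTs ⊕ T)) :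
    M.grammar.Step x y ↔ GStep M x y := by
  constructor
  · rintro ⟨u0, v0, r, hx, hv, (⟨hr, hok⟩ | ⟨hr, hok⟩)⟩
    · exact ⟨u0, v0, r, hr, hx.trans (List.append_assoc _ _ _), hv, hok⟩
    · exact absurd hr (Set.notMem_empty r)
  · rintro ⟨u0, v0, r, hr, hx, hv, hok⟩
    exact ⟨u0, v0, r, hx.trans (List.append_assoc u0 [Sum.inl r.lhs] v0).symm, hv,
      Or.inl ⟨hr, hok⟩⟩

theorem mem_language_iff [Finite T] (w : List T) :
    w ∈ M.grammar.language ↔ ReflTransGen (GStep M) [Sum.inl .s] (w.map .inr) := by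
  constructor
  · intro h
    exact ReflTransGen.mono (fun a b hab => (grammar_step_iff a b).1 hab) _ _ h
  · intro h
    exact ReflTransGen.mono (fun a b hab => (grammar_step_iff a b).2 hab) _ _ h

/-- The only direct derivations from a form are the abstract transitions. -/
theorem step_form (s : AS M) (hs : s.WF) (v : List (M.NTs ⊕ T))
    (h : GStep M s.form v) :
    ∃ s' : AS M, AStep s s' ∧ v = s'.form := by
  obtain ⟨w, A, u, X, β, k⟩ := s
  obtain ⟨u0, v0, r, hr, hx, hv, hok⟩ := h
  simp only [AS.form, LRC.form] at hx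
  cases hr with
  | gen =>
    have hmem : (Sum.inl .s : M.NTs ⊕ T) ∈ u0 ++ Sum.inl .s :: v0 := by simp
    rw [← hx] at hmem
    cases X <;> simp [mem_actStr, mem_betaStr, Ctl.str] at hmem
    obtain ⟨h1, h2, h3⟩ := hs rfl
    simp only at h1
    subst h1
    have key : (w.map .inr ++ (actStr A ++ u.map (fun c => .inl (.st c)))) ++
        (.inl .s) :: List.replicate k (.inl .b) = u0 ++ .inl .s :: v0 := by
      simpa [Ctl.str, betaStr] using hx
    obtain ⟨h4, -, h5⟩ := (List.append_cons_inj_of_notMem (by simp [mem_actStr]) (by simp)).1 key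
    refine ⟨⟨w, A, u ++ [.inl M.z], .s, false, k + 1⟩, AStep.gen, ?_⟩
    rw [hv, ← h4, ← h5]
    simp [AS.form, LRC.form, Ctl.str, betaStr, List.replicate_succ]
  | start =>
    have hmem : (Sum.inl .s : M.NTs ⊕ T) ∈ u0 ++ Sum.inl .s :: v0 := by simp
    rw [← hx] at hmem
    cases X <;> simp [mem_actStr, mem_betaStr, Ctl.str] at hmem
    have key : (w.map .inr ++ (actStr A ++ u.map (fun c => .inl (.st c)))) ++
        (.inl .s) :: (betaStr β ++ List.replicate k (.inl .b)) = u0 ++ .inl .s :: v0 := by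
      simpa [Ctl.str] using hx
    obtain ⟨h4, -, h5⟩ := (List.append_cons_inj_of_notMem (by simp [mem_actStr])
      (by simp [mem_betaStr])).1 key
    refine ⟨⟨w, A, u, .m M.q0, β, k⟩, AStep.start, ?_⟩
    rw [hv, ← h4, ← h5]
    simp [AS.form, LRC.form, Ctl.str]
  | act c =>
    simp only [RCRule.Ok, letForb] at hok
    obtain ⟨-, hok⟩ := hok
    have hst : ∀ c', (Sum.inl (.st c') : M.NTs ⊕ T) ∉ u0 := fun c' => hok _ ⟨c', Or.inl rfl⟩
    have hac : ∀ c', (Sum.inl (.ac c') : M.NTs ⊕ T) ∉ u0 := fun c' => hok _ ⟨c', Or.inr rfl⟩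
    have hp : ∀ a ∈ u0, ¬ (∃ c', a = (Sum.inl (.st c') : M.NTs ⊕ T) ∨ a = .inl (.ac c')) := by
      rintro a ha ⟨c', rfl | rfl⟩
      · exact hst _ ha
      · exact hac _ ha
    have hmem : (Sum.inl (.st c) : M.NTs ⊕ T) ∈ u0 ++ Sum.inl (.st c) :: v0 := by simp
    rw [← hx] at hmem
    have hcu : c ∈ u := by
      simp only [List.mem_append, List.mem_map, reduceCtorEq, and_false, exists_false,
        mem_actStr, mem_betaStr, Sum.inl.injEq, false_or, List.mem_replicate, or_false] at hmem
      cases X <;> simpa [Ctl.str] using hmem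
    cases A with
    | some a =>
      exfalso
      have key : (w.map .inr) ++ (.inl (.ac a)) :: (u.map (fun c => .inl (.st c)) ++ (X.str ++
          (betaStr β ++ List.replicate k (.inl .b)))) = u0 ++ .inl (.st c) :: v0 := by
        simpa [actStr] using hx
      have := first_occ _ key (by simp) hp ⟨a, Or.inr rfl⟩ ⟨c, Or.inl rfl⟩
      simp at this
    | none =>
      cases u with
      | nil => simp at hcu
      | cons c₁ u =>
        have key : (w.map .inr) ++ (.inl (.st c₁)) :: (u.map (fun c => .inl (.st c)) ++ (X.str ++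
            (betaStr β ++ List.replicate k (.inl .b)))) = u0 ++ .inl (.st c) :: v0 := by
          simpa [actStr] using hx
        obtain ⟨h4, h5, h6⟩ := first_occ _ key (by simp) hp ⟨c₁, Or.inl rfl⟩ ⟨c, Or.inl rfl⟩
        simp only [Sum.inl.injEq, NT.st.injEq] at h5
        subst h5
        refine ⟨⟨w, some c₁, u, X, β, k⟩, AStep.act, ?_⟩
        rw [hv, ← h4, ← h6]
        simp [AS.form, LRC.form, actStr]
  | deact c =>
    have hmem : (Sum.inl (.ac c) : M.NTs ⊕ T) ∈ u0 ++ Sum.inl (.ac c) :: v0 := by simp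
    rw [← hx] at hmem
    have hA : A = some c := by
      simp only [List.mem_append, List.mem_map, reduceCtorEq, and_false, exists_false,
        mem_actStr, mem_betaStr, Sum.inl.injEq, false_or, List.mem_replicate, or_false] at hmem
      rcases hmem with ⟨c', h1, h2⟩ | hmem
      · simp only [NT.ac.injEq] at h2
        rw [h1, h2]
      · cases X <;> simp [Ctl.str] at hmem
    subst hA
    have key : (w.map .inr) ++ (.inl (.ac c)) :: (u.map (fun c => .inl (.st c)) ++ (X.str ++
        (betaStr β ++ List.replicate k (.inl .b)))) = u0 ++ .inl (.ac c) :: v0 := by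
      simpa [actStr] using hx
    obtain ⟨h4, -, h5⟩ := (List.append_cons_inj_of_notMem (by simp)
      (by cases X <;> simp [mem_betaStr, Ctl.str])).1 key
    refine ⟨⟨w ++ out c, none, u, X, β, k⟩, AStep.deact, ?_⟩
    rw [hv, ← h4, ← h5]
    simp [AS.form, LRC.form, actStr]
  | read q c d q' hδ =>
    have hmem : (Sum.inl (.m q) : M.NTs ⊕ T) ∈ u0 ++ Sum.inl (.m q) :: v0 := by simp
    rw [← hx] at hmem
    have hX : X = .m q := by
      cases X <;> simp [mem_actStr, mem_betaStr, Ctl.str] at hmem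
      rw [hmem]
    subst hX
    have key : (w.map .inr ++ (actStr A ++ u.map (fun c => .inl (.st c)))) ++
        (.inl (.m q)) :: (betaStr β ++ List.replicate k (.inl .b)) = u0 ++ .inl (.m q) :: v0 := by
      simpa [Ctl.str] using hx
    obtain ⟨h4, -, h5⟩ := (List.append_cons_inj_of_notMem (by simp [mem_actStr])
      (by simp [mem_betaStr])).1 key
    have hac := hok.1 _ (Set.mem_singleton _)
    rw [← h4] at hac
    simp only [List.mem_append, List.mem_map, reduceCtorEq, and_false, exists_false,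
        mem_actStr, Sum.inl.injEq, false_or, or_false, NT.ac.injEq] at hac
    obtain ⟨c', hA, rfl⟩ := hac
    subst hA
    refine ⟨⟨w, some (.inl c), u ++ [d], .p q', β, k⟩, AStep.read hδ, ?_⟩
    rw [hv, ← h4, ← h5]
    simp [AS.form, LRC.form, Ctl.str]
  | unp q =>
    have hmem : (Sum.inl (.p q) : M.NTs ⊕ T) ∈ u0 ++ Sum.inl (.p q) :: v0 := by simp
    rw [← hx] at hmem
    have hX : X = .p q := by
      cases X <;> simp [mem_actStr, mem_betaStr, Ctl.str] at hmem
      rw [hmem]
    subst hX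
    have key : (w.map .inr ++ (actStr A ++ u.map (fun c => .inl (.st c)))) ++
        (.inl (.p q)) :: (betaStr β ++ List.replicate k (.inl .b)) = u0 ++ .inl (.p q) :: v0 := by
      simpa [Ctl.str] using hx
    obtain ⟨h4, -, h5⟩ := (List.append_cons_inj_of_notMem (by simp [mem_actStr])
      (by simp [mem_betaStr])).1 key
    cases A with
    | some a =>
      exfalso
      refine hok.2 (.ac a) ⟨a, rfl⟩ ?_
      rw [← h4]
      simp [actStr]
    | none =>
      refine ⟨⟨w, none, u, .m q, β, k⟩, AStep.unp, ?_⟩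
      rw [hv, ← h4, ← h5]
      simp [AS.form, LRC.form, Ctl.str]
  | erase =>
    have hmem : (Sum.inl (.m M.qf) : M.NTs ⊕ T) ∈ u0 ++ Sum.inl (.m M.qf) :: v0 := by simp
    rw [← hx] at hmem
    have hX : X = .m M.qf := by
      cases X <;> simp [mem_actStr, mem_betaStr, Ctl.str] at hmem
      rw [hmem]
    subst hX
    have key : (w.map .inr ++ (actStr A ++ u.map (fun c => .inl (.st c)))) ++
        (.inl (.m M.qf)) :: (betaStr β ++ List.replicate k (.inl .b)) =
        u0 ++ .inl (.m M.qf) :: v0 := by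
      simpa [Ctl.str] using hx
    obtain ⟨h4, -, h5⟩ := (List.append_cons_inj_of_notMem (by simp [mem_actStr])
      (by simp [mem_betaStr])).1 key
    refine ⟨⟨w, A, u, .e, β, k⟩, AStep.erase, ?_⟩
    rw [hv, ← h4, ← h5]
    simp [AS.form, LRC.form, Ctl.str]
  | bact o =>
    simp only [RCRule.Ok] at hok
    obtain ⟨hok1, hok⟩ := hok
    have hb : (Sum.inl .b : M.NTs ⊕ T) ∉ u0 := hok _ (by simp)
    have hb' : (Sum.inl .b' : M.NTs ⊕ T) ∉ u0 := hok _ (by simp)
    have hp : ∀ a ∈ u0, ¬ (a = (Sum.inl .b : M.NTs ⊕ T) ∨ a = .inl .b') := by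
      rintro a ha (rfl | rfl)
      · exact hb ha
      · exact hb' ha
    have hmem : (Sum.inl .b : M.NTs ⊕ T) ∈ u0 ++ Sum.inl .b :: v0 := by simp
    rw [← hx] at hmem
    have hk : k ≠ 0 := by
      simp only [List.mem_append, List.mem_map, reduceCtorEq, and_false, exists_false,
        mem_actStr, mem_betaStr, Sum.inl.injEq, false_or, List.mem_replicate] at hmem
      cases X <;> simpa [Ctl.str] using hmem
    obtain ⟨k, rfl⟩ := Nat.exists_eq_succ_of_ne_zero hk
    cases β with
    | true =>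
      exfalso
      have key : (w.map .inr ++ (actStr A ++ (u.map (fun c => .inl (.st c)) ++ X.str))) ++
          (.inl .b') :: List.replicate (k + 1) (.inl .b) = u0 ++ .inl .b :: v0 := by
        simpa [betaStr] using hx
      have := first_occ _ key (fun a ha => not_b_of_mem_pre ha) hp (Or.inr rfl) (Or.inl rfl)
      simp at this
    | false =>
      have key : (w.map .inr ++ (actStr A ++ (u.map (fun c => .inl (.st c)) ++ X.str))) ++
          (.inl .b) :: List.replicate k (.inl .b) = u0 ++ .inl .b :: v0 := by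
        simpa [betaStr, List.replicate_succ] using hx
      obtain ⟨h4, -, h6⟩ := first_occ _ key (fun a ha => not_b_of_mem_pre ha) hp
        (Or.inl rfl) (Or.inl rfl)
      have hac := hok1 _ (Set.mem_singleton _)
      rw [← h4] at hac
      have hA : A = some (.inr o) := by
        simp only [List.mem_append, List.mem_map, reduceCtorEq, and_false, exists_false,
          mem_actStr, Sum.inl.injEq, false_or, NT.ac.injEq] at hac
        rcases hac with ⟨c', h1, rfl⟩ | hac
        · exact h1
        · cases X <;> simp [Ctl.str] at hac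
      subst hA
      refine ⟨⟨w, some (.inr o), u, X, true, k⟩, AStep.bact, ?_⟩
      rw [hv, ← h4, ← h6]
      simp [AS.form, LRC.form, betaStr]
  | bdeact =>
    have hmem : (Sum.inl .b' : M.NTs ⊕ T) ∈ u0 ++ Sum.inl .b' :: v0 := by simp
    rw [← hx] at hmem
    have hβ : β = true := by
      cases X <;> simpa [mem_actStr, mem_betaStr, Ctl.str] using hmem
    subst hβ
    have key : (w.map .inr ++ (actStr A ++ (u.map (fun c => .inl (.st c)) ++ X.str))) ++
          (.inl .b') :: List.replicate k (.inl .b) = u0 ++ .inl .b' :: v0 := by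
        simpa [betaStr] using hx
    obtain ⟨h4, -, h5⟩ := (List.append_cons_inj_of_notMem
      (by cases X <;> simp [mem_actStr, Ctl.str]) (by simp)).1 key
    cases A with
    | some a =>
      exfalso
      refine hok.2 (.ac a) ⟨a, rfl⟩ ?_
      rw [← h4]
      simp [actStr]
    | none =>
      refine ⟨⟨w, none, u, X, false, k⟩, AStep.bdeact, ?_⟩
      rw [hv, ← h4, ← h5]
      simp [AS.form, LRC.form, betaStr]

end

end Pool.Agent.H80.LRC
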