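import Pool.Agent.H80.LRC.Rot

/-!
# The language of the simulating grammar
-/

namespace Pool.Agent.H80.LRC

open Relation

variable {T : Type} {M : Rot T}

/-- The unread weight of the active letter. -/
def unread : Option M.Let → Ctl M.Q → Bool → ℕ
  | none, _, _ => 0
  | some (.inl _), .p _, _ => 0
  | some (.inl _), _, _ => 1
  | some (.inr _), _, true => 0
  | some (.inr _), _, false => 1

/-- The potential (number of letters still to be used minus number of counters). -/
def AS.pot (s : AS M) : ℤ := s.u.length + unread s.A s.X s.β - s.k

/-- The queue of the machine configuration of an abstract state. -/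
def AS.que (s : AS M) : List M.Let :=
  match s.A with
  | none => s.u
  | some c => if unread s.A s.X s.β = 1 then c :: s.u else s.u

/-- The output of the machine configuration of an abstract state. -/
def AS.outp (s : AS M) : List T :=
  match s.A with
  | none => s.w
  | some c => if unread s.A s.X s.β = 1 then s.w else s.w ++ out c

/-- The abstract state represents a reachable configuration. -/
def AS.Good (s : AS M) : Prop :=
  match s.X with
  | .s => s.outp = [] ∧ ∃ n, s.que = List.replicate n (Sum.inl M.z)
  | .m q => M.Reach s.outp q s.que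
  | .p q => M.Reach s.outp q s.que
  | .e => M.Reach s.outp M.qf s.que

/-- The invariant. -/
def AS.Inv (s : AS M) : Prop := s.pot < 0 ∨ (s.pot = 0 ∧ s.Good)

theorem AStep.inv {s s' : AS M} (h : AStep s s') (hs : s.Inv) : s'.Inv := by
  cases h with
  | @gen w A u k =>
    have hp : (⟨w, A, u ++ [.inl M.z], .s, false, k + 1⟩ : AS M).pot =
        (⟨w, A, u, .s, false, k⟩ : AS M).pot := by
      simp only [AS.pot, List.length_append, List.length_singleton]
      push_cast
      ring
    rcases hs with hs | ⟨h1, h2⟩
    · left; omega
    · right
      refine ⟨by omega, ?_⟩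
      obtain ⟨h2, n, h3⟩ := h2
      cases A with
      | none =>
        refine ⟨h2, n + 1, ?_⟩
        simp only [AS.que] at h3 ⊢
        rw [h3, List.replicate_succ']
      | some c =>
        have hun : unread (some c) (.s : Ctl M.Q) false = 1 := by
          rcases c with c | c <;> rfl
        refine ⟨?_, n + 1, ?_⟩
        · simpa [AS.outp, hun] using h2
        · simp only [AS.que, hun, if_true] at h3 ⊢
          rw [List.replicate_succ', ← h3]
          simp
  | @start w A u β k =>
    have hun : unread A (.m M.q0) β = unread A (.s : Ctl M.Q) β := by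
      rcases A with _ | (c | c) <;> cases β <;> rfl
    have hp : (⟨w, A, u, .m M.q0, β, k⟩ : AS M).pot = (⟨w, A, u, .s, β, k⟩ : AS M).pot := by
      simp only [AS.pot, hun]
    rcases hs with hs | ⟨h1, h2⟩
    · left; omega
    · right
      refine ⟨by omega, ?_⟩
      obtain ⟨h2, n, h3⟩ := h2
      have hq : (⟨w, A, u, .m M.q0, β, k⟩ : AS M).que = (⟨w, A, u, .s, β, k⟩ : AS M).que := by
        cases A <;> simp only [AS.que, hun]
      have ho : (⟨w, A, u, .m M.q0, β, k⟩ : AS M).outp = (⟨w, A, u, .s, β, k⟩ : AS M).outp := by
        cases A <;> simp only [AS.outp, hun]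
      show M.Reach _ _ _
      rw [hq, ho, h2, h3]
      exact Rot.Reach.init n
  | @act w c u X β k =>
    have h01 : unread (some c) X β = 0 ∨ unread (some c) X β = 1 := by
      rcases c with c | c <;> cases X <;> cases β <;> simp [unread]
    have hp : (⟨w, none, c :: u, X, β, k⟩ : AS M).pot =
        (⟨w, some c, u, X, β, k⟩ : AS M).pot + 1 - unread (some c) X β := by
      simp only [AS.pot, List.length_cons, unread]
      push_cast
      ring
    rcases h01 with h0 | h0
    · left
      rw [h0] at hp
      rcases hs with hs | ⟨h1, h2⟩ <;> (push_cast at hp; omega)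
    · rw [h0] at hp
      rcases hs with hs | ⟨h1, h2⟩
      · left
        push_cast at hp
        omega
      · right
        refine ⟨by push_cast at hp; omega, ?_⟩
        have hq : (⟨w, some c, u, X, β, k⟩ : AS M).que = (⟨w, none, c :: u, X, β, k⟩ : AS M).que := by
          simp [AS.que, h0]
        have ho : (⟨w, some c, u, X, β, k⟩ : AS M).outp =
            (⟨w, none, c :: u, X, β, k⟩ : AS M).outp := by
          simp [AS.outp, h0]
        cases X <;> simpa only [AS.Good, hq, ho] using h2
  | @deact w c u X β k =>
    have h01 : unread (some c) X β = 0 ∨ unread (some c) X β = 1 := by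
      rcases c with c | c <;> cases X <;> cases β <;> simp [unread]
    have hp : (⟨w ++ out c, none, u, X, β, k⟩ : AS M).pot =
        (⟨w, some c, u, X, β, k⟩ : AS M).pot - unread (some c) X β := by
      simp only [AS.pot, unread]
      push_cast
      ring
    rcases h01 with h0 | h0
    · rw [h0] at hp
      rcases hs with hs | ⟨h1, h2⟩
      · left
        push_cast at hp
        omega
      · right
        refine ⟨by push_cast at hp; omega, ?_⟩
        have hq : (⟨w ++ out c, none, u, X, β, k⟩ : AS M).que =
            (⟨w, some c, u, X, β, k⟩ : AS M).que := by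
          simp [AS.que, h0]
        have ho : (⟨w ++ out c, none, u, X, β, k⟩ : AS M).outp =
            (⟨w, some c, u, X, β, k⟩ : AS M).outp := by
          simp [AS.outp, h0]
        cases X <;> simpa only [AS.Good, hq, ho] using h2
    · left
      rw [h0] at hp
      rcases hs with hs | ⟨h1, h2⟩ <;> (push_cast at hp; omega)
  | @read w c u β k q q' d hδ =>
    have hp : (⟨w, some (.inl c), u ++ [d], .p q', β, k⟩ : AS M).pot =
        (⟨w, some (.inl c), u, .m q, β, k⟩ : AS M).pot := by
      simp only [AS.pot, unread, List.length_append, List.length_singleton]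
      push_cast
      ring
    rcases hs with hs | ⟨h1, h2⟩
    · left; omega
    · right
      refine ⟨by omega, ?_⟩
      have h3 : M.Reach w q (.inl c :: u) := by
        simpa [AS.Good, AS.outp, AS.que, unread] using h2
      have h4 := Rot.Reach.read h3 hδ
      simpa [AS.Good, AS.outp, AS.que, unread, out] using h4
  | @unp w u q β k =>
    rcases hs with hs | ⟨h1, h2⟩
    · left
      simpa [AS.pot, unread] using hs
    · right
      refine ⟨by simpa [AS.pot, unread] using h1, ?_⟩
      simpa [AS.Good, AS.outp, AS.que, unread] using h2
  | @erase w A u β k =>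
    have hun : unread A (.e : Ctl M.Q) β = unread A (.m M.qf) β := by
      rcases A with _ | (c | c) <;> cases β <;> rfl
    have hp : (⟨w, A, u, .e, β, k⟩ : AS M).pot = (⟨w, A, u, .m M.qf, β, k⟩ : AS M).pot := by
      simp only [AS.pot, hun]
    rcases hs with hs | ⟨h1, h2⟩
    · left; omega
    · right
      refine ⟨by omega, ?_⟩
      have hq : (⟨w, A, u, .e, β, k⟩ : AS M).que = (⟨w, A, u, .m M.qf, β, k⟩ : AS M).que := by
        cases A <;> simp only [AS.que, hun]
      have ho : (⟨w, A, u, .e, β, k⟩ : AS M).outp = (⟨w, A, u, .m M.qf, β, k⟩ : AS M).outp := by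
        cases A <;> simp only [AS.outp, hun]
      show M.Reach _ _ _
      rw [hq, ho]
      exact h2
  | @bact w o u X k =>
    have hp : (⟨w, some (.inr o), u, X, true, k⟩ : AS M).pot =
        (⟨w, some (.inr o), u, X, false, k + 1⟩ : AS M).pot := by
      simp only [AS.pot, unread]
      push_cast
      ring
    rcases hs with hs | ⟨h1, h2⟩
    · left; omega
    · right
      refine ⟨by omega, ?_⟩
      cases X with
      | s => 
        simp only [AS.Good, AS.outp, AS.que, unread, if_true] at h2
        obtain ⟨-, n, h3⟩ := h2
        cases n with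
        | zero => simp at h3
        | succ n => simp [List.replicate_succ] at h3
      | m q =>
        have h3 : M.Reach w q (.inr o :: u) := by
          simpa [AS.Good, AS.outp, AS.que, unread] using h2
        simpa [AS.Good, AS.outp, AS.que, unread] using Rot.Reach.pop h3
      | p q =>
        have h3 : M.Reach w q (.inr o :: u) := by
          simpa [AS.Good, AS.outp, AS.que, unread] using h2
        simpa [AS.Good, AS.outp, AS.que, unread] using Rot.Reach.pop h3
      | e =>
        have h3 : M.Reach w M.qf (.inr o :: u) := by
          simpa [AS.Good, AS.outp, AS.que, unread] using h2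
        simpa [AS.Good, AS.outp, AS.que, unread] using Rot.Reach.pop h3
  | @bdeact w u X k =>
    rcases hs with hs | ⟨h1, h2⟩
    · left
      simpa [AS.pot, unread] using hs
    · right
      refine ⟨by simpa [AS.pot, unread] using h1, ?_⟩
      cases X <;> simpa [AS.Good, AS.outp, AS.que, unread] using h2

/-- Every sentential form is the form of an abstract state with the invariant. -/
theorem derives_form {x : List (M.NTs ⊕ T)}
    (h : ReflTransGen (GStep M) [Sum.inl .s] x) :
    ∃ s : AS M, s.WF ∧ s.Inv ∧ x = s.form := by
  induction h with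
  | refl =>
    refine ⟨⟨[], none, [], .s, false, 0⟩, ?_, ?_, ?_⟩
    · intro _
      simp
    · right
      refine ⟨by simp [AS.pot, unread], ?_⟩
      exact ⟨rfl, 0, rfl⟩
    · simp [AS.form, form, actStr, betaStr, Ctl.str]
  | tail _ hst ih =>
    obtain ⟨s, h1, h2, rfl⟩ := ih
    obtain ⟨s', h3, rfl⟩ := step_form s h1 _ hst
    exact ⟨s', h3.wf h1, h3.inv h2, rfl⟩

theorem lang_sound [Finite T] {w : List T} (h : w ∈ M.grammar.language) : w ∈ M.lang := by
  obtain ⟨s, h1, h2, h3⟩ := derives_form ((mem_language_iff w).1 h)
  obtain ⟨v, A, u, X, β, k⟩ := s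
  simp only [AS.form, form] at h3
  have hno : ∀ N : M.NTs, (Sum.inl N : M.NTs ⊕ T) ∉ v.map .inr ++ (actStr A ++
      (u.map (fun c => .inl (.st c)) ++ (X.str ++ (betaStr β ++ List.replicate k (.inl .b))))) := by
    intro N
    rw [← h3]
    simp
  have hA : A = none := by
    cases A with
    | none => rfl
    | some c => exact absurd (by simp [actStr]) (hno (.ac c))
  subst hA
  have hu : u = [] := by
    cases u with
    | nil => rfl
    | cons c u => exact absurd (by simp) (hno (.st c))
  subst hu
  have hX : X = .e := by
    cases X with
    | e => rfl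
    | s => exact absurd (by simp [Ctl.str]) (hno .s)
    | m q => exact absurd (by simp [Ctl.str]) (hno (.m q))
    | p q => exact absurd (by simp [Ctl.str]) (hno (.p q))
  subst hX
  have hβ : β = false := by
    cases β with
    | false => rfl
    | true => exact absurd (by simp [betaStr]) (hno .b')
  subst hβ
  have hk : k = 0 := by
    cases k with
    | zero => rfl
    | succ k => exact absurd (by simp [List.replicate_succ]) (hno .b)
  subst hk
  have hv : w = v := by
    have h4 : w.map (Sum.inr : T → M.NTs ⊕ T) = v.map Sum.inr := by
      simpa [actStr, betaStr, Ctl.str] using h3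
    exact List.map_injective_iff.2 Sum.inr_injective h4
  subst hv
  rcases h2 with h2 | ⟨-, h2⟩
  · simp [AS.pot, unread] at h2
  · exact h2

/-- sentential form of a machine configuration -/
def cform (w : List T) (q : M.Q) (u : List M.Let) : List (M.NTs ⊕ T) :=
  form (M := M) w none u (.m q) false u.length

theorem step_of_rule {r : RCRule M.NTs T} (hr : IsRule M r) (u0 v0 : List (M.NTs ⊕ T))
    (hok : r.Ok u0) {x y : List (M.NTs ⊕ T)} (hx : x = u0 ++ Sum.inl r.lhs :: v0)
    (hy : y = u0 ++ r.rhs ++ v0) : GStep M x y :=
  ⟨u0, v0, r, hr, hx, hy, hok⟩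

theorem derives_of_reach {w : List T} {q : M.Q} {u : List M.Let} (h : M.Reach w q u) :
    ReflTransGen (GStep M) [Sum.inl .s] (cform w q u) := by
  induction h with
  | init n =>
    have h1 : ∀ n, ReflTransGen (GStep M) [Sum.inl .s]
        (List.replicate n (.inl (.st (.inl M.z))) ++ (Sum.inl .s : M.NTs ⊕ T) ::
          List.replicate n (.inl .b)) := by
      intro n
      induction n with
      | zero => exact ReflTransGen.refl
      | succ n ih =>
        refine ReflTransGen.tail ih ?_
        refine step_of_rule IsRule.gen _ _ ⟨by simp, by simp⟩ rfl ?_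
        rw [List.replicate_succ', List.replicate_succ]
        simp
    refine ReflTransGen.tail (h1 n) ?_
    refine step_of_rule IsRule.start _ _ ⟨by simp, by simp⟩ rfl ?_
    simp [cform, form, actStr, betaStr, Ctl.str]
  | @read w q c u d q' hr hδ ih =>
    -- activate, read, deactivate, unprime
    refine ReflTransGen.trans ih ?_
    have s1 : GStep M (cform w q (.inl c :: u))
        (w.map .inr ++ (.inl (.ac (.inl c)) :: (u.map (fun c => .inl (.st c)) ++
          (.inl (.m q) :: List.replicate (u.length + 1) (.inl .b))))) := by
      refine step_of_rule (IsRule.act (.inl c)) (w.map .inr)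
        (u.map (fun c => .inl (.st c)) ++ (.inl (.m q) :: List.replicate (u.length + 1) (.inl .b)))
        ⟨by simp, by simp [letForb]⟩ ?_ ?_
      · simp [cform, form, actStr, betaStr, Ctl.str]
      · simp
    have s2 : GStep M (w.map .inr ++ (.inl (.ac (.inl c)) :: (u.map (fun c => .inl (.st c)) ++
          (.inl (.m q) :: List.replicate (u.length + 1) (.inl .b)))))
        (w.map .inr ++ (.inl (.ac (.inl c)) :: (u.map (fun c => .inl (.st c)) ++
          (.inl (.st d) :: .inl (.p q') :: List.replicate (u.length + 1) (.inl .b))))) := by
      refine step_of_rule (IsRule.read q c d q' hδ)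
        (w.map .inr ++ (.inl (.ac (.inl c)) :: (u.map (fun c => .inl (.st c)))))
        (List.replicate (u.length + 1) (.inl .b)) ⟨by simp, by simp⟩ ?_ ?_
      · simp
      · simp
    have s3 : GStep M (w.map .inr ++ (.inl (.ac (.inl c)) :: (u.map (fun c => .inl (.st c)) ++
          (.inl (.st d) :: .inl (.p q') :: List.replicate (u.length + 1) (.inl .b)))))
        (w.map .inr ++ ((u.map (fun c => .inl (.st c)) ++
          (.inl (.st d) :: .inl (.p q') :: List.replicate (u.length + 1) (.inl .b))))) := by
      refine step_of_rule (IsRule.deact (.inl c)) (w.map .inr)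
        ((u.map (fun c => .inl (.st c)) ++
          (.inl (.st d) :: .inl (.p q') :: List.replicate (u.length + 1) (.inl .b))))
        ⟨by simp, by simp⟩ ?_ ?_
      · simp
      · simp [out]
    have s4 : GStep M (w.map .inr ++ ((u.map (fun c => .inl (.st c)) ++
          (.inl (.st d) :: .inl (.p q') :: List.replicate (u.length + 1) (.inl .b)))))
        (cform w q' (u ++ [d])) := by
      refine step_of_rule (IsRule.unp q')
        (w.map .inr ++ ((u.map (fun c => .inl (.st c)) ++ [.inl (.st d)])))
        (List.replicate (u.length + 1) (.inl .b)) ⟨by simp, ?_⟩ ?_ ?_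
      · rintro A ⟨c', rfl⟩
        simp
      · simp
      · simp [cform, form, actStr, betaStr, Ctl.str]
    exact (((ReflTransGen.single s1).tail s2).tail s3).tail s4
  | @pop w q o u hr ih =>
    refine ReflTransGen.trans ih ?_
    have s1 : GStep M (cform w q (.inr o :: u))
        (w.map .inr ++ (.inl (.ac (.inr o)) :: (u.map (fun c => .inl (.st c)) ++
          (.inl (.m q) :: .inl .b :: List.replicate u.length (.inl .b))))) := by
      refine step_of_rule (IsRule.act (.inr o)) (w.map .inr)
        (u.map (fun c => .inl (.st c)) ++ (.inl (.m q) :: .inl .b ::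
          List.replicate u.length (.inl .b)))
        ⟨by simp, by simp [letForb]⟩ ?_ ?_
      · simp [cform, form, actStr, betaStr, Ctl.str, List.replicate_succ]
      · simp
    have s2 : GStep M (w.map .inr ++ (.inl (.ac (.inr o)) :: (u.map (fun c => .inl (.st c)) ++
          (.inl (.m q) :: .inl .b :: List.replicate u.length (.inl .b)))))
        (w.map .inr ++ (.inl (.ac (.inr o)) :: (u.map (fun c => .inl (.st c)) ++
          (.inl (.m q) :: .inl .b' :: List.replicate u.length (.inl .b))))) := by
      refine step_of_rule (IsRule.bact o)
        (w.map .inr ++ (.inl (.ac (.inr o)) :: (u.map (fun c => .inl (.st c)) ++ [.inl (.m q)])))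
        (List.replicate u.length (.inl .b)) ⟨by simp, ?_⟩ ?_ ?_
      · rintro A (rfl | rfl) <;> simp
      · simp
      · simp
    have s3 : GStep M (w.map .inr ++ (.inl (.ac (.inr o)) :: (u.map (fun c => .inl (.st c)) ++
          (.inl (.m q) :: .inl .b' :: List.replicate u.length (.inl .b)))))
        (w.map .inr ++ ((out (Γ := M.Γ) (.inr o)).map .inr ++ (u.map (fun c => .inl (.st c)) ++
          (.inl (.m q) :: .inl .b' :: List.replicate u.length (.inl .b))))) := by
      refine step_of_rule (IsRule.deact (.inr o)) (w.map .inr)
        (u.map (fun c => .inl (.st c)) ++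
          (.inl (.m q) :: .inl .b' :: List.replicate u.length (.inl .b)))
        ⟨by simp, by simp⟩ ?_ ?_
      · simp
      · simp
    have s4 : GStep M
        (w.map .inr ++ ((out (Γ := M.Γ) (.inr o)).map .inr ++ (u.map (fun c => .inl (.st c)) ++
          (.inl (.m q) :: .inl .b' :: List.replicate u.length (.inl .b)))))
        (cform (w ++ out (Γ := M.Γ) (.inr o)) q u) := by
      refine step_of_rule IsRule.bdeact
        (w.map .inr ++ ((out (Γ := M.Γ) (.inr o)).map .inr ++ (u.map (fun c => .inl (.st c)) ++
          [.inl (.m q)]))) (List.replicate u.length (.inl .b)) ⟨by simp, ?_⟩ ?_ ?_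
      · rintro A ⟨c', rfl⟩
        simp
      · simp
      · simp [cform, form, actStr, betaStr, Ctl.str]
    exact (((ReflTransGen.single s1).tail s2).tail s3).tail s4

theorem lang_complete [Finite T] {w : List T} (h : w ∈ M.lang) : w ∈ M.grammar.language := by
  refine (mem_language_iff w).2 (ReflTransGen.tail (derives_of_reach h) ?_)
  refine step_of_rule IsRule.erase (w.map .inr) [] ⟨by simp, by simp⟩ ?_ ?_
  · simp [cform, form, actStr, betaStr, Ctl.str]
  · simp

/-- Languages of rotating queue machines are generated by left random context grammars. -/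
theorem lang_eq [Finite T] (M : Rot T) : M.grammar.language = M.lang :=
  Set.Subset.antisymm (fun _ h => lang_sound h) (fun _ h => lang_complete h)

end Pool.Agent.H80.LRC
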