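import Pool.Agent.H80.LRC.RotLang

/-!
# Simulating a TM0 machine by a rotating queue machine
-/

namespace Pool.Agent.H80.LRC

open Turing Relation

/-- The data for the simulation. -/
structure Prm (T : Type) where
  Γ : Type
  Λ : Type
  iΓ : Inhabited Γ
  iΛ : Inhabited Λ
  finΓ : Finite Γ
  M : TM0.Machine Γ Λ
  S : Set Λ
  finS : S.Finite
  supp : TM0.Supports M S
  e : T → ℕ
  K : ℕ
  hK : ∀ a, e a ≤ K
  c0 : Γ
  c1 : Γ
  b0 : Γ

attribute [instance] Prm.iΓ Prm.iΛ

variable {T : Type}

/-- the states of the rotating machine -/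
inductive RS (P : Prm T)
  | i0 | i1 | i2
  | j (z : Fin (P.K + 1))
  | k
  | c
  | pr (q : P.S)
  | pl (q : P.S)
  | fin

/-- cells -/
abbrev Cl (P : Prm T) : Type := P.Γ × Option P.S × Option T

/-- the working letters of the rotating machine -/
inductive RL (P : Prm T)
  | zero
  | hash
  | cell (x : Cl P)

instance (P : Prm T) : Finite (RS P) := by
  have := P.finS.to_subtype
  let f : (Fin 6 ⊕ Fin (P.K + 1)) ⊕ (P.S ⊕ P.S) → RS P := fun x => match x with
    | Sum.inl (Sum.inl 0) => .i0
    | Sum.inl (Sum.inl 1) => .i1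
    | Sum.inl (Sum.inl 2) => .i2
    | Sum.inl (Sum.inl 3) => .k
    | Sum.inl (Sum.inl 4) => .c
    | Sum.inl (Sum.inl 5) => .fin
    | Sum.inl (Sum.inr z) => .j z
    | Sum.inr (Sum.inl q) => .pr q
    | Sum.inr (Sum.inr q) => .pl q
  refine Finite.of_surjective f ?_
  rintro (_ | _ | _ | z | _ | _ | q | q | _)
  · exact ⟨Sum.inl (Sum.inl 0), rfl⟩
  · exact ⟨Sum.inl (Sum.inl 1), rfl⟩
  · exact ⟨Sum.inl (Sum.inl 2), rfl⟩
  · exact ⟨Sum.inl (Sum.inr z), rfl⟩
  · exact ⟨Sum.inl (Sum.inl 3), rfl⟩
  · exact ⟨Sum.inl (Sum.inl 4), rfl⟩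
  · exact ⟨Sum.inr (Sum.inl q), rfl⟩
  · exact ⟨Sum.inr (Sum.inr q), rfl⟩
  · exact ⟨Sum.inl (Sum.inl 5), rfl⟩

instance [Finite T] (P : Prm T) : Finite (RL P) := by
  have := P.finS.to_subtype
  have := P.finΓ
  let f : Option (Option (Cl P)) → RL P := fun x => match x with
    | none => .zero
    | some none => .hash
    | some (some x) => .cell x
  refine Finite.of_surjective f ?_
  rintro (_ | _ | x)
  · exact ⟨none, rfl⟩
  · exact ⟨some none, rfl⟩
  · exact ⟨some (some x), rfl⟩

/-- initial state as an element of the support -/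
def Prm.q0 (P : Prm T) : P.S := ⟨default, P.supp.1⟩

/-- the transitions of the rotating machine -/
inductive Dl (P : Prm T) : RS P → RL P → (RL P ⊕ Option T) → RS P → Prop
  | i0 : Dl P .i0 .zero (.inl .hash) .i1
  | i1 : Dl P .i1 .zero (.inl (.cell (default, none, none))) .i1
  | i1' : Dl P .i1 .zero (.inl (.cell (P.c0, some P.q0, none))) .i2
  | i2 : Dl P .i2 .zero (.inl (.cell (P.c1, none, none))) (.j 0)
  | j0 (z : ℕ) (h : z + 1 < P.K + 1) :
      Dl P (.j ⟨z, by omega⟩) .zero (.inl (.cell (P.b0, none, none))) (.j ⟨z + 1, h⟩)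
  | j1 (a : T) : Dl P (.j ⟨P.e a, Nat.lt_succ_of_le (P.hK a)⟩) .zero
      (.inl (.cell (P.c1, none, some a))) (.j 0)
  | jk : Dl P (.j 0) .zero (.inl (.cell (default, none, none))) .k
  | kk : Dl P .k .zero (.inl (.cell (default, none, none))) .k
  | kc : Dl P .k .hash (.inl .hash) .c
  | cc (x : Cl P) : Dl P .c (.cell x) (.inl (.cell x)) .c
  | ch : Dl P .c .hash (.inl .hash) .c
  | w (a : P.Γ) (q : P.S) (o : Option T) (q' : P.S) (b : P.Γ)
      (h : P.M q a = some (q'.1, TM0.Stmt.write b)) :
      Dl P .c (.cell (a, some q, o)) (.inl (.cell (b, some q', o))) .c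
  | mr (a : P.Γ) (q : P.S) (o : Option T) (q' : P.S)
      (h : P.M q a = some (q'.1, TM0.Stmt.move Dir.right)) :
      Dl P .c (.cell (a, some q, o)) (.inl (.cell (a, none, o))) (.pr q')
  | mr' (b : P.Γ) (o : Option T) (q' : P.S) :
      Dl P (.pr q') (.cell (b, none, o)) (.inl (.cell (b, some q', o))) .c
  | ml (b : P.Γ) (o : Option T) (q' : P.S) :
      Dl P .c (.cell (b, none, o)) (.inl (.cell (b, some q', o))) (.pl q')
  | ml' (a : P.Γ) (q : P.S) (o : Option T) (q' : P.S)
      (h : P.M q a = some (q'.1, TM0.Stmt.move Dir.left)) :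
      Dl P (.pl q') (.cell (a, some q, o)) (.inl (.cell (a, none, o))) .c
  | f : Dl P .c .hash (.inr none) .fin
  | fc (a : P.Γ) (o : Option T) : Dl P .fin (.cell (a, none, o)) (.inr o) .fin
  | fh (a : P.Γ) (q : P.S) (o : Option T) (h : P.M q a = none) :
      Dl P .fin (.cell (a, some q, o)) (.inr o) .fin

/-- The rotating machine. -/
def Prm.rot [Finite T] (P : Prm T) : Rot T where
  Q := RS P
  Γ := RL P
  finQ := inferInstance
  finΓ := inferInstance
  δ := Dl P
  q0 := .i0
  qf := .fin
  z := .zero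

section

variable {P : Prm T}

/-- letters of the queue -/
abbrev Ql (P : Prm T) : Type := RL P ⊕ Option T

/-- cells as letters of the queue -/
def cs (x : List (Cl P)) : List (Ql P) := x.map (fun c => .inl (.cell c))

@[simp] theorem cs_nil : cs ([] : List (Cl P)) = [] := rfl
@[simp] theorem cs_cons (c : Cl P) (x : List (Cl P)) :
    cs (c :: x) = .inl (.cell c) :: cs x := rfl
@[simp] theorem cs_append (x y : List (Cl P)) : cs (x ++ y) = cs x ++ cs y := by
  simp [cs]

/-- output of a list of cells -/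
def outs (x : List (Cl P)) : List T := (x.map (fun c => c.2.2)).reduceOption

@[simp] theorem outs_append (x y : List (Cl P)) : outs (x ++ y) = outs x ++ outs y := by
  simp [outs, List.reduceOption_append]

theorem outs_cons (c : Cl P) (y : List (Cl P)) : outs (c :: y) = outs [c] ++ outs y := by
  rw [← outs_append]; rfl

/-- symbols of a list of cells -/
def syms (x : List (Cl P)) : List P.Γ := x.map (fun c => c.1)

@[simp] theorem syms_nil : syms ([] : List (Cl P)) = [] := rfl
@[simp] theorem syms_cons (c : Cl P) (x : List (Cl P)) : syms (c :: x) = c.1 :: syms x := rfl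
@[simp] theorem syms_append (x y : List (Cl P)) : syms (x ++ y) = syms x ++ syms y := by
  simp [syms]

/-- no head in a list of cells -/
def NoHead (x : List (Cl P)) : Prop := ∀ c ∈ x, c.2.1 = none

theorem noHead_nil : NoHead ([] : List (Cl P)) := by simp [NoHead]

theorem noHead_append {x y : List (Cl P)} : NoHead (x ++ y) ↔ NoHead x ∧ NoHead y := by
  simp only [NoHead, List.mem_append, or_imp, forall_and]

theorem noHead_cons {c : Cl P} {y : List (Cl P)} :
    NoHead (c :: y) ↔ c.2.1 = none ∧ NoHead y := by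
  simp only [NoHead, List.mem_cons, or_imp, forall_and, forall_eq]

/-- a word of cells represents a configuration -/
def Rep (k : ℕ) (cfg : TM0.Cfg P.Γ P.Λ) (X : List (Cl P)) : Prop :=
  ∃ (x : List (Cl P)) (a : P.Γ) (q : P.S) (o : Option T) (y : List (Cl P)),
    X = x ++ (a, some q, o) :: y ∧ NoHead x ∧ NoHead y ∧ k ≤ x.length ∧ k ≤ y.length ∧
    cfg = ⟨q.1, ⟨a, ListBlank.mk (syms x).reverse, ListBlank.mk (syms y)⟩⟩

theorem unique_head {l₁ l₂ r₁ r₂ : List (Cl P)} {c d : Cl P}
    (h : l₁ ++ c :: r₁ = l₂ ++ d :: r₂) (hc : c.2.1 ≠ none) (h₂ : NoHead l₂) (h₂' : NoHead r₂) :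
    l₁ = l₂ ∧ c = d ∧ r₁ = r₂ := by
  induction l₁ generalizing l₂ with
  | nil =>
    cases l₂ with
    | nil => simpa using h
    | cons b l₂ =>
      simp only [List.nil_append, List.cons_append, List.cons.injEq] at h
      exact absurd (h₂ b (by simp)) (h.1 ▸ hc)
  | cons a l₁ ih =>
    cases l₂ with
    | nil =>
      simp only [List.nil_append, List.cons_append, List.cons.injEq] at h
      have : c ∈ r₂ := by rw [← h.2]; simp
      exact absurd (h₂' c this) hc
    | cons b l₂ =>
      simp only [List.cons_append, List.cons.injEq] at h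
      obtain ⟨rfl, h⟩ := h
      obtain ⟨h1, h2⟩ := ih h (noHead_cons.1 h₂).2
      exact ⟨by rw [h1], h2⟩

variable (P) in
/-- the initial tape -/
def Prm.tape (w : List T) : List P.Γ :=
  P.c0 :: P.c1 :: w.flatMap (fun a => List.replicate (P.e a) P.b0 ++ [P.c1])

variable (P) in
/-- cells of the word -/
def Prm.tb (w : List T) : List (Cl P) :=
  w.flatMap (fun a => List.replicate (P.e a) ((P.b0, none, none) : Cl P) ++ [(P.c1, none, some a)])

/-- a word of cells represents a configuration reachable on input w -/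
def Valid (w : List T) (X : List (Cl P)) : Prop :=
  outs X = w ∧ ∃ cfg, TM0.Reaches P.M (TM0.init (P.tape w)) cfg ∧ Rep 0 cfg X

/-- the blank cell -/
def blk : Cl P := (default, none, none)

theorem noHead_tb (w : List T) : NoHead (P.tb w) := by
  intro c hc
  simp only [Prm.tb, List.mem_flatMap, List.mem_append, List.mem_replicate,
    List.mem_singleton] at hc
  obtain ⟨a, -, ⟨-, rfl⟩ | rfl⟩ := hc <;> rfl

theorem noHead_replicate (n : ℕ) (c : Cl P) (hc : c.2.1 = none) :
    NoHead (List.replicate n c) := by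
  intro d hd
  rw [(List.mem_replicate.1 hd).2, hc]

theorem outs_replicate (n : ℕ) (c : Cl P) (hc : c.2.2 = none) :
    outs (List.replicate n c) = [] := by
  induction n with
  | zero => rfl
  | succ n ih =>
    rw [List.replicate_succ, outs_cons, ih]
    simp [outs, hc]

theorem outs_tb (w : List T) : outs (P.tb w) = w := by
  induction w with
  | nil => rfl
  | cons a w ih =>
    have : P.tb (a :: w) = List.replicate (P.e a) ((P.b0, none, none) : Cl P) ++
        ([(P.c1, none, some a)] ++ P.tb w) := by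
      simp [Prm.tb]
    rw [this, outs_append, outs_append, ih, outs_replicate _ _ rfl]
    simp [outs]

theorem syms_replicate (n : ℕ) (c : Cl P) : syms (List.replicate n c) = List.replicate n c.1 := by
  simp [syms]

theorem syms_tb (w : List T) :
    syms (P.tb w) = w.flatMap (fun a => List.replicate (P.e a) P.b0 ++ [P.c1]) := by
  induction w with
  | nil => rfl
  | cons a w ih =>
    have : P.tb (a :: w) = List.replicate (P.e a) ((P.b0, none, none) : Cl P) ++
        ([(P.c1, none, some a)] ++ P.tb w) := by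
      simp [Prm.tb]
    rw [this, syms_append, syms_append, ih, syms_replicate]
    simp

variable (P) in
/-- the initial word -/
def Prm.iw (m m' : ℕ) (w : List T) : List (Cl P) :=
  List.replicate m blk ++ (P.c0, some P.q0, none) ::
    ((P.c1, none, none) :: (P.tb w ++ List.replicate m' blk))

theorem mk_append_replicate {Γ : Type} [Inhabited Γ] (l : List Γ) (n : ℕ) :
    ListBlank.mk (l ++ List.replicate n default) = ListBlank.mk l := by
  refine Quotient.sound' (Or.inr ⟨n, rfl⟩)

theorem mk_replicate {Γ : Type} [Inhabited Γ] (n : ℕ) :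
    ListBlank.mk (List.replicate n (default : Γ)) = ListBlank.mk [] :=
  mk_append_replicate [] n

theorem rep_iw (m m' : ℕ) (w : List T) (k : ℕ) (hm : k ≤ m) (hm' : k ≤ m') :
    Rep k (TM0.init (P.tape w)) (P.iw m m' w) := by
  refine ⟨List.replicate m blk, P.c0, P.q0, none,
    (P.c1, none, none) :: (P.tb w ++ List.replicate m' blk), rfl, noHead_replicate _ _ rfl,
    ?_, by simpa using hm, ?_, ?_⟩
  · rw [noHead_cons, noHead_append]
    exact ⟨rfl, noHead_tb _, noHead_replicate _ _ rfl⟩
  · simp only [List.length_cons, List.length_append, List.length_replicate]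
    omega
  · simp only [TM0.init, Prm.q0, syms_replicate, blk, List.reverse_replicate, mk_replicate,
      syms_cons, syms_append, syms_tb, Tape.mk₁, Tape.mk₂, Tape.mk', Prm.tape,
      ListBlank.head_mk, ListBlank.tail_mk, List.headI_cons, List.tail_cons]
    rw [← List.cons_append, mk_append_replicate]

theorem outs_iw (m m' : ℕ) (w : List T) : outs (P.iw m m' w) = w := by
  rw [Prm.iw, outs_append, outs_cons (P.c0, _, _), outs_cons (P.c1, _, _), outs_append, outs_tb,
    outs_replicate _ _ rfl, outs_replicate _ _ rfl]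
  simp [outs]

theorem valid_iw (m m' : ℕ) (w : List T) : Valid w (P.iw m m' w) :=
  ⟨outs_iw m m' w, _, ReflTransGen.refl, rep_iw m m' w 0 (Nat.zero_le _) (Nat.zero_le _)⟩

theorem valid_write {w : List T} {x y : List (Cl P)} {a : P.Γ} {q : P.S} {o : Option T}
    {q' : P.S} {b : P.Γ} (h : P.M q a = some (q'.1, TM0.Stmt.write b))
    (hv : Valid w (x ++ (a, some q, o) :: y)) : Valid w (x ++ (b, some q', o) :: y) := by
  obtain ⟨h1, cfg, h2, x', a', q1, o', y', h3, h4, h5, -, -, h6⟩ := hv
  obtain ⟨rfl, h7, rfl⟩ := unique_head h3 (by simp) h4 h5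
  simp only [Prod.mk.injEq, Option.some.injEq] at h7
  obtain ⟨rfl, rfl, rfl⟩ := h7
  refine ⟨?_, _, h2.tail ?_, x, b, q', o, y, rfl, h4, h5, Nat.zero_le _, Nat.zero_le _, rfl⟩
  · rw [outs_append, outs_cons] at h1 ⊢
    exact h1
  · rw [h6]
    simp [TM0.step, h, Tape.write]

theorem valid_right {w : List T} {x y : List (Cl P)} {a b : P.Γ} {q : P.S} {o o' : Option T}
    {q' : P.S} (h : P.M q a = some (q'.1, TM0.Stmt.move Dir.right))
    (hv : Valid w (x ++ (a, some q, o) :: (b, none, o') :: y)) :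
    Valid w (x ++ (a, none, o) :: (b, some q', o') :: y) := by
  obtain ⟨h1, cfg, h2, x', a', q1, o1, y', h3, h4, h5, -, -, h6⟩ := hv
  obtain ⟨rfl, h7, rfl⟩ := unique_head h3 (by simp) h4 h5
  simp only [Prod.mk.injEq, Option.some.injEq] at h7
  obtain ⟨rfl, rfl, rfl⟩ := h7
  refine ⟨?_, _, h2.tail ?_, x ++ [(a, none, o)], b, q', o', y, by simp, ?_,
    (noHead_cons.1 h5).2, Nat.zero_le _, Nat.zero_le _, rfl⟩
  · rw [outs_append, outs_cons, outs_cons (b, _, _)] at h1 ⊢
    exact h1
  · rw [h6]
    simp [TM0.step, h, Tape.move]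
  · rw [noHead_append]
    exact ⟨h4, by simp [NoHead]⟩

theorem valid_left {w : List T} {x y : List (Cl P)} {a b : P.Γ} {q : P.S} {o o' : Option T}
    {q' : P.S} (h : P.M q a = some (q'.1, TM0.Stmt.move Dir.left))
    (hv : Valid w (x ++ (b, none, o') :: (a, some q, o) :: y)) :
    Valid w (x ++ (b, some q', o') :: (a, none, o) :: y) := by
  obtain ⟨h1, cfg, h2, x', a', q1, o1, y', h3, h4, h5, -, -, h6⟩ := hv
  replace h3 : (x ++ [(b, none, o')]) ++ (a, some q, o) :: y = x' ++ (a', some q1, o1) :: y' := by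
    rw [← h3]; simp
  obtain ⟨rfl, h7, rfl⟩ := unique_head h3 (by simp) h4 h5
  simp only [Prod.mk.injEq, Option.some.injEq] at h7
  obtain ⟨rfl, rfl, rfl⟩ := h7
  refine ⟨?_, _, h2.tail ?_, x, b, q', o', (a, none, o) :: y, rfl, (noHead_append.1 h4).1,
    ?_, Nat.zero_le _, Nat.zero_le _, rfl⟩
  · rw [outs_append, outs_cons, outs_cons (a, _, _)] at h1 ⊢
    exact h1
  · rw [h6]
    simp [TM0.step, h, Tape.move]
  · rw [noHead_cons]
    exact ⟨rfl, h5⟩

theorem valid_halt {w : List T} {X : List (Cl P)} (hv : Valid w X)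
    (hh : ∀ c ∈ X, ∀ q : P.S, c.2.1 = some q → P.M q c.1 = none) :
    (StateTransition.eval (TM0.step P.M) (TM0.init (P.tape w))).Dom := by
  obtain ⟨h1, cfg, h2, x, a, q, o, y, h3, h4, h5, -, -, h6⟩ := hv
  have h7 : P.M q a = none := hh (a, some q, o) (by rw [h3]; simp) q rfl
  have h8 : cfg ∈ StateTransition.eval (TM0.step P.M) (TM0.init (P.tape w)) := by
    rw [StateTransition.mem_eval]
    refine ⟨h2, ?_⟩
    rw [h6]
    simp [TM0.step, h7]
  exact Part.dom_iff_mem.2 ⟨_, h8⟩

end

end Pool.Agent.H80.LRC
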