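import Mathlib

/-!
# From recursively enumerable sets of words to Turing machines
-/

namespace Pool.Agent.H80.LRC

open Turing Turing.ToPartrec Turing.PartrecToTM2

/-- trNat of double -/
theorem trNat_bit0 {n : ℕ} (hn : n ≠ 0) : trNat (2 * n) = Γ'.bit0 :: trNat n := by
  unfold trNat
  have h1 : ((2 * n : ℕ) : Num) = Num.bit0 (n : Num) := by
    have := Num.ofNat'_bit false n
    simp only [Nat.bit_false, cond_false] at this
    rw [← Num.ofNat'_eq, ← Num.ofNat'_eq]
    simpa using this
  rw [h1]
  cases h : (n : Num) with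
  | zero =>
    exfalso
    apply hn
    have : ((n : Num) : ℕ) = 0 := by rw [h]; rfl
    simpa using this
  | pos m => rfl

theorem trNat_bit1 (n : ℕ) : trNat (2 * n + 1) = Γ'.bit1 :: trNat n := by
  unfold trNat
  have h1 : ((2 * n + 1 : ℕ) : Num) = Num.bit1 (n : Num) := by
    have := Num.ofNat'_bit true n
    simp only [Nat.bit_true, cond_true] at this
    rw [← Num.ofNat'_eq, ← Num.ofNat'_eq]
    simpa using this
  rw [h1]
  cases h : (n : Num) with
  | zero => rfl
  | pos m => rfl

theorem trNat_pow_mul (i : ℕ) {m : ℕ} (hm : m ≠ 0) :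
    trNat (2 ^ i * m) = List.replicate i Γ'.bit0 ++ trNat m := by
  induction i with
  | zero => simp
  | succ i ih =>
    rw [pow_succ', mul_assoc, trNat_bit0 (by positivity), ih, List.replicate_succ]
    rfl

section

variable {T : Type}

/-- numeric code of a word -/
def num (e : T → ℕ) (w : List T) : ℕ := w.foldl (fun n a => 2 * (2 ^ e a * n) + 1) 1

theorem num_concat (e : T → ℕ) (w : List T) (a : T) :
    num e (w ++ [a]) = 2 * (2 ^ e a * num e w) + 1 := by
  simp [num]

theorem num_odd (e : T → ℕ) (w : List T) : num e w % 2 = 1 := by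
  rcases List.eq_nil_or_concat w with rfl | ⟨v, a, rfl⟩
  · rfl
  · rw [List.concat_eq_append, num_concat]
    omega

theorem pow_mul_inj {i j m m' : ℕ} (hm : m % 2 = 1) (hm' : m' % 2 = 1)
    (h : 2 ^ i * m = 2 ^ j * m') : i = j ∧ m = m' := by
  induction i generalizing j with
  | zero =>
    cases j with
    | zero => simpa using h
    | succ j =>
      exfalso
      rw [pow_zero, one_mul, pow_succ', mul_assoc] at h
      omega
  | succ i ih =>
    cases j with
    | zero =>
      exfalso
      rw [pow_zero, one_mul, pow_succ', mul_assoc] at h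
      omega
    | succ j =>
      rw [pow_succ', pow_succ', mul_assoc, mul_assoc] at h
      obtain ⟨h1, h2⟩ := ih (Nat.eq_of_mul_eq_mul_left (by norm_num) h)
      exact ⟨by rw [h1], h2⟩

theorem num_injective {e : T → ℕ} (he : Function.Injective e) : Function.Injective (num e) := by
  intro w
  induction w using List.reverseRecOn with
  | nil =>
    intro v h
    rcases List.eq_nil_or_concat v with rfl | ⟨v, a, rfl⟩
    · rfl
    · rw [List.concat_eq_append, num_concat] at h
      have h1 := num_odd e v
      have h2 : 0 < 2 ^ e a * num e v := by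
        have : num e v ≠ 0 := by omega
        positivity
      simp only [num, List.foldl_nil] at h h2
      omega
  | append_singleton w a ih =>
    intro v h
    rcases List.eq_nil_or_concat v with rfl | ⟨v, b, rfl⟩
    · rw [num_concat] at h
      have h1 := num_odd e w
      have h2 : 0 < 2 ^ e a * num e w := by
        have : num e w ≠ 0 := by omega
        positivity
      simp only [num, List.foldl_nil] at h h2
      omega
    · rw [List.concat_eq_append, num_concat, num_concat] at h
      rw [List.concat_eq_append]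
      have h1 : 2 ^ e a * num e w = 2 ^ e b * num e v := by omega
      obtain ⟨h2, h3⟩ := pow_mul_inj (num_odd e w) (num_odd e v) h1
      rw [ih h3, he h2]

/-- block code of a word -/
def blocks {Γ : Type} (e : T → ℕ) (b0 b1 : Γ) (w : List T) : List Γ :=
  w.flatMap (fun a => List.replicate (e a) b0 ++ [b1])

theorem map_blocks {Γ Δ : Type} (g : Γ → Δ) (e : T → ℕ) (b0 b1 : Γ) (w : List T) :
    (blocks e b0 b1 w).map g = blocks e (g b0) (g b1) w := by
  simp [blocks, List.map_flatMap]

theorem reverse_trNat_num (e : T → ℕ) (w : List T) :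
    (trNat (num e w)).reverse = Γ'.bit1 :: blocks e Γ'.bit0 Γ'.bit1 w := by
  induction w using List.reverseRecOn with
  | nil =>
    have : trNat 1 = [Γ'.bit1] := by
      have := trNat_bit1 0
      simpa using this
    simp [num, this, blocks]
  | append_singleton w a ih =>
    have h1 := num_odd e w
    rw [num_concat, trNat_bit1, trNat_pow_mul _ (by omega)]
    simp [ih, blocks]

theorem primrec_num [Primcodable T] [Finite T] (e : T → ℕ) : Primrec (num e) := by
  refine Primrec.list_foldl (f := fun w : List T => w) (g := fun _ => 1)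
    (h := fun _ (x : ℕ × T) => 2 * (2 ^ e x.2 * x.1) + 1) Primrec.id (Primrec.const 1) ?_
  have h1 : Primrec (fun a : T => 2 ^ e a) := Primrec.dom_finite _
  have h2 : Primrec (fun x : List T × ℕ × T => 2 ^ e x.2.2 * x.2.1) :=
    Primrec.nat_mul.comp (h1.comp (Primrec.snd.comp Primrec.snd)) (Primrec.fst.comp Primrec.snd)
  have h3 : Primrec (fun x : List T × ℕ × T => 2 * (2 ^ e x.2.2 * x.2.1)) :=
    Primrec.nat_mul.comp (Primrec.const 2) h2
  exact (Primrec.succ.comp h3).to₂

/-- search for a word with a given code -/
def searchf [Primcodable T] (e : T → ℕ) (n m : ℕ) : Option (List T) :=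
  (Encodable.decode m : Option (List T)).bind fun w => if num e w = n then some w else none

theorem computable_searchf [Primcodable T] [Finite T] (e : T → ℕ) :
    Computable₂ (searchf (T := T) e) := by
  have h1 : Primrec (fun x : ℕ × ℕ => (Encodable.decode x.2 : Option (List T))) :=
    Primrec.decode.comp Primrec.snd
  have h2 : Primrec₂ (fun (x : ℕ × ℕ) (w : List T) => if num e w = x.1 then some w else none) := by
    refine Primrec.ite ?_ (Primrec.option_some.comp Primrec.snd) (Primrec.const none)
    exact Primrec.eq.comp ((primrec_num e).comp Primrec.snd) (Primrec.fst.comp Primrec.fst)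
  exact (Primrec.option_bind h1 h2).to_comp.to₂

theorem searchf_spec [Primcodable T] {e : T → ℕ} (he : Function.Injective e) (w : List T) :
    Nat.rfindOpt (searchf e (num e w)) = Part.some w := by
  have h1 : ∀ v m, v ∈ searchf e (num e w) m → v = w := by
    intro v m hv
    simp only [searchf, Option.mem_def, Option.bind_eq_some_iff] at hv
    obtain ⟨v', -, h2⟩ := hv
    split_ifs at h2 with h3
    simp only [Option.some.injEq] at h2
    subst h2
    exact num_injective he h3
  have h2 : (Nat.rfindOpt (searchf e (num e w))).Dom := by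
    rw [Nat.rfindOpt_dom]
    refine ⟨Encodable.encode w, w, ?_⟩
    simp [searchf]
  have h3 := Part.get_mem h2
  obtain ⟨m, hm⟩ := Nat.rfindOpt_spec h3
  have h4 := h1 _ _ hm
  rw [h4] at h3
  exact Part.eq_some_iff.2 h3

theorem exists_code_of_re [Primcodable T] [Finite T] {p : List T → Prop} (hp : REPred p)
    {e : T → ℕ} (he : Function.Injective e) :
    ∃ c : Code, ∀ w, (c.eval [num e w]).Dom ↔ p w := by
  let f : ℕ →. ℕ := fun n => (Nat.rfindOpt (searchf e n)).bind
    (fun w => (Part.assert (p w) fun _ => Part.some ()).map (fun _ => 0))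
  have hf : Partrec f := by
    refine Partrec.bind (Partrec.rfindOpt (computable_searchf e)) ?_
    have h1 : Partrec (fun x : ℕ × List T => Part.assert (p x.2) fun _ => Part.some ()) :=
      Partrec.comp hp Computable.snd
    exact (Partrec.map h1 (Computable.const 0).to₂).to₂
  obtain ⟨c, hc⟩ := Code.exists_code (Nat.Partrec'.part_iff₁.2 hf)
  refine ⟨c, fun w => ?_⟩
  have h1 := hc ⟨[num e w], rfl⟩
  have h2 : (List.Vector.head (⟨[num e w], rfl⟩ : List.Vector ℕ 1)) = num e w := rfl
  rw [h2] at h1
  simp only at h1
  rw [h1]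
  have h3 : f (num e w) = (Part.assert (p w) fun _ => Part.some ()).map (fun _ => 0) := by
    simp only [f, searchf_spec he, Part.bind_some]
  rw [h3]
  simp [Part.assert]

end

instance : Finite K' := by
  refine Finite.of_surjective (fun i : Fin 4 => match i with
    | 0 => K'.main | 1 => K'.rev | 2 => K'.aux | 3 => K'.stack) ?_
  rintro (_ | _ | _ | _)
  · exact ⟨0, rfl⟩
  · exact ⟨1, rfl⟩
  · exact ⟨2, rfl⟩
  · exact ⟨3, rfl⟩

open StateTransition in
/-- Every recursively enumerable set of words is the halting set of a TM0 machine started on a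
letter-by-letter encoding of the word. -/
theorem exists_tm0 {T : Type} [Primcodable T] [Finite T] {p : List T → Prop} (hp : REPred p)
    {e : T → ℕ} (he : Function.Injective e) :
    ∃ (Γ Λ : Type) (_ : Inhabited Γ) (_ : Inhabited Λ) (_ : Finite Γ) (M : TM0.Machine Γ Λ)
      (S : Set Λ) (_ : S.Finite) (_ : TM0.Supports M S) (c0 c1 b0 : Γ),
      ∀ w, p w ↔ (eval (TM0.step M) (TM0.init (c0 :: c1 :: blocks e b0 c1 w))).Dom := by
  classical
  obtain ⟨c, hc⟩ := exists_code_of_re hp he
  let inst : Inhabited Λ' := ⟨trNormal c Cont'.halt⟩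
  let M2 : Λ' → TM2.Stmt (fun _ : K' => Γ') Λ' (Option Γ') := tr
  have hsupp : TM2.Supports M2 (codeSupp c Cont'.halt) := tr_supports c Cont'.halt
  have hsupp1 := TM2to1.tr_supports M2 hsupp
  have hsupp0 := TM1to0.tr_supports (TM2to1.tr M2) hsupp1
  let cell : Γ' → TM2to1.Γ' K' (fun _ => Γ') :=
    fun a => (false, Function.update (fun _ => none) K'.main (some a))
  refine ⟨TM2to1.Γ' K' (fun _ => Γ'), TM1to0.Λ' (TM2to1.tr M2), inferInstance, inferInstance, ?_,
    TM1to0.tr (TM2to1.tr M2), _, Finset.finite_toSet _, hsupp0, (true, (cell Γ'.cons).2),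
    cell Γ'.bit1, cell Γ'.bit0, ?_⟩
  · unfold TM2to1.Γ'
    infer_instance
  · intro w
    rw [← hc w]
    have h1 : (TM2.eval M2 K'.main (trList [num e w])).Dom ↔ (c.eval [num e w]).Dom := by
      have h2 := tr_eval c [num e w]
      have h3 : (PartrecToTM2.init c [num e w]) = (TM2.init K'.main (trList [num e w]) :
          TM2.Cfg (fun _ : K' => Γ') Λ' (Option Γ')) := by
        simp only [PartrecToTM2.init, TM2.init]
        congr 1
        funext k
        cases k <;> rfl
      rw [h3] at h2
      simp only [TM2.eval, Part.map_Dom]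
      rw [h2]
      simp
    rw [← h1, ← TM2to1.tr_eval_dom, ← TM1to0.tr_eval]
    have h4 : TM2to1.trInit K'.main (trList [num e w]) =
        (((true, (cell Γ'.cons).2) : TM2to1.Γ' K' (fun _ => Γ')) ::
          cell Γ'.bit1 :: blocks e (cell Γ'.bit0) (cell Γ'.bit1) w) := by
      have h5 : (trList [num e w]).reverse =
          Γ'.cons :: Γ'.bit1 :: blocks e Γ'.bit0 Γ'.bit1 w := by
        simp only [trList, List.reverse_append, List.reverse_cons, List.reverse_nil,
          List.nil_append, List.cons_append, reverse_trNat_num]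
      unfold TM2to1.trInit
      rw [h5]
      exact congrArg (fun l => ((true, (cell Γ'.cons).2) : TM2to1.Γ' K' (fun _ => Γ')) ::
          cell Γ'.bit1 :: l) (map_blocks cell e Γ'.bit0 Γ'.bit1 w)
    rw [h4]
    rfl

end Pool.Agent.H80.LRC
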