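import Pool.Agent.H80.LRC.SimSound
import Pool.Agent.H80.LRC.TMRed

/-!
# Completeness of the simulation and the main theorem
-/

namespace Pool.Agent.H80.LRC

open Turing Relation

variable {T : Type} {P : Prm T}

/-- copying cells -/
theorem pr_copy (x : List (Cl P)) : ∀ (v : List (Ql P)), PReach P [] .c (cs x ++ v) →
    PReach P [] .c (v ++ cs x) := by
  induction x with
  | nil => intro v h; simpa using h
  | cons a x ih =>
    intro v h
    have h1 : PReach P [] .c ((cs x ++ v) ++ [.inl (.cell a)]) :=
      PReach.read h (Dl.cc a)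
    have h2 := ih (v ++ [.inl (.cell a)]) (by simpa using h1)
    simpa using h2

theorem pr_hash (v : List (Ql P)) (h : PReach P [] .c (.inl .hash :: v)) :
    PReach P [] .c (v ++ [.inl .hash]) :=
  PReach.read h Dl.ch

/-- generation phase: blanks at the left -/
theorem pr_blank (m : ℕ) : ∀ (n : ℕ) (v : List (Ql P)),
    PReach P [] .i1 (List.replicate (m + n) (.inl .zero) ++ v) →
    PReach P [] .i1 (List.replicate n (.inl .zero) ++ (v ++ cs (List.replicate m blk))) := by
  induction m with
  | zero => intro n v h; simpa using h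
  | succ m ih =>
    intro n v h
    have h0 : m + 1 + n = (m + n) + 1 := by omega
    rw [h0, List.replicate_succ, List.cons_append] at h
    have h1 := PReach.read h Dl.i1
    have h2 := ih n (v ++ [.inl (.cell (default, none, none))]) (by simpa using h1)
    rw [List.replicate_succ]
    simpa [blk] using h2

theorem pr_blank' (m : ℕ) : ∀ (n : ℕ) (v : List (Ql P)),
    PReach P [] .k (List.replicate (m + n) (.inl .zero) ++ v) →
    PReach P [] .k (List.replicate n (.inl .zero) ++ (v ++ cs (List.replicate m blk))) := by
  induction m with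
  | zero => intro n v h; simpa using h
  | succ m ih =>
    intro n v h
    have h0 : m + 1 + n = (m + n) + 1 := by omega
    rw [h0, List.replicate_succ, List.cons_append] at h
    have h1 := PReach.read h Dl.kk
    have h2 := ih n (v ++ [.inl (.cell (default, none, none))]) (by simpa using h1)
    rw [List.replicate_succ]
    simpa [blk] using h2

theorem pr_zeros (m : ℕ) : ∀ (z : ℕ) (hz : z + m < P.K + 1) (n : ℕ) (v : List (Ql P)),
    PReach P [] (.j ⟨z, by omega⟩) (List.replicate (m + n) (.inl .zero) ++ v) →
    PReach P [] (.j ⟨z + m, hz⟩) (List.replicate n (.inl .zero) ++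
      (v ++ cs (List.replicate m (P.b0, none, none)))) := by
  induction m with
  | zero => intro z hz n v h; simpa using h
  | succ m ih =>
    intro z hz n v h
    have h0 : m + 1 + n = (m + n) + 1 := by omega
    rw [h0, List.replicate_succ, List.cons_append] at h
    have h1 := PReach.read h (Dl.j0 z (by omega))
    have h2 := ih (z + 1) (by omega) n (v ++ [.inl (.cell (P.b0, none, none))])
      (by simpa using h1)
    rw [List.replicate_succ]
    have h3 : z + 1 + m = z + (m + 1) := by omega
    simp only [h3] at h2
    simpa using h2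

theorem pr_word (w : List T) : ∀ (n : ℕ) (v : List (Ql P)),
    PReach P [] (.j 0) (List.replicate ((P.tb w).length + n) (.inl .zero) ++ v) →
    PReach P [] (.j 0) (List.replicate n (.inl .zero) ++ (v ++ cs (P.tb w))) := by
  induction w with
  | nil => intro n v h; simpa [Prm.tb] using h
  | cons a w ih =>
    intro n v h
    have hlen : (P.tb (a :: w)).length + n = P.e a + ((P.tb w).length + n + 1) := by
      simp only [Prm.tb, List.flatMap_cons, List.length_append, List.length_replicate,
        List.length_singleton]
      omega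
    rw [hlen] at h
    have hK := P.hK a
    have h1 := pr_zeros (P.e a) 0 (by omega) _ _ h
    rw [List.replicate_succ, List.cons_append] at h1
    have h1' : PReach P [] (.j ⟨P.e a, Nat.lt_succ_of_le (P.hK a)⟩)
        (Sum.inl RL.zero :: (List.replicate ((P.tb w).length + n) (.inl .zero) ++
          (v ++ cs (List.replicate (P.e a) (P.b0, none, none))))) := by
      simpa using h1
    have h2 := PReach.read h1' (Dl.j1 a)
    have h3 := ih n (v ++ cs (List.replicate (P.e a) (P.b0, none, none)) ++
      [.inl (.cell (P.c1, none, some a))]) (by simpa using h2)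
    simpa [Prm.tb] using h3

theorem pr_iw (m m' : ℕ) (w : List T) :
    PReach P [] .c (cs (P.iw m (m' + 1) w) ++ [.inl .hash]) := by
  have h0 := PReach.init (P := P) (1 + (m + (1 + (1 + ((P.tb w).length + (1 + m'))))))
  rw [Nat.add_comm 1 (m + _), List.replicate_succ] at h0
  have h1 := PReach.read h0 Dl.i0
  have h2 := pr_blank m _ _ h1
  rw [Nat.add_comm 1 (1 + _), List.replicate_succ, List.cons_append] at h2
  have h3 := PReach.read h2 Dl.i1'
  rw [Nat.add_comm 1 ((P.tb w).length + _), List.replicate_succ, List.append_assoc,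
    List.cons_append] at h3
  have h4 := PReach.read h3 Dl.i2
  rw [List.append_assoc] at h4
  have h5 := pr_word w _ _ h4
  rw [Nat.add_comm 1 m', List.replicate_succ, List.cons_append] at h5
  have h6 := PReach.read h5 Dl.jk
  rw [List.append_assoc] at h6
  have h7 := pr_blank' m' 0 _ (by simpa using h6)
  have h8 : PReach P [] .k (.inl .hash :: cs (P.iw m (m' + 1) w)) := by
    rw [Prm.iw, List.replicate_succ (n := m')]
    simpa [blk] using h7
  exact PReach.read h8 Dl.kc

/-- one step of the Turing machine -/
theorem pr_step {k : ℕ} {cfg cfg' : TM0.Cfg P.Γ P.Λ} {X : List (Cl P)}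
    (hX : Rep (k + 1) cfg X) (hs : cfg' ∈ TM0.step P.M cfg)
    (h : PReach P [] .c (cs X ++ [.inl .hash])) :
    ∃ X', Rep k cfg' X' ∧ outs X' = outs X ∧ PReach P [] .c (cs X' ++ [.inl .hash]) := by
  obtain ⟨x, a, q, o, y, rfl, hx, hy, hlx, hly, rfl⟩ := hX
  simp only [TM0.step, Option.mem_def, Option.map_eq_some_iff] at hs
  obtain ⟨⟨q', st⟩, hM, rfl⟩ := hs
  have hq' : q' ∈ P.S := P.supp.2 hM q.2
  rcases st with d | b
  · cases d with
    | left =>
      obtain ⟨x', c, rfl⟩ : ∃ x' c, x = x' ++ [c] := by
        rcases List.eq_nil_or_concat x with rfl | ⟨x', c, rfl⟩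
        · simp at hlx
        · exact ⟨x', c, by simp⟩
      obtain ⟨b, hc, o'⟩ := c
      obtain ⟨hx', hc'⟩ := noHead_append.1 hx
      have : hc = none := hc' _ (List.mem_singleton.2 rfl)
      subst this
      refine ⟨x' ++ (b, some ⟨q', hq'⟩, o') :: (a, none, o) :: y, ?_, ?_, ?_⟩
      · refine ⟨x', b, ⟨q', hq'⟩, o', (a, none, o) :: y, rfl, hx', noHead_cons.2 ⟨rfl, hy⟩,
          ?_, ?_, ?_⟩
        · simp only [List.length_append, List.length_singleton] at hlx
          omega
        · simp only [List.length_cons]
          omega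
        · simp [Tape.move]
      · simp only [List.append_assoc, List.cons_append, List.nil_append]
        rw [outs_append, outs_append, outs_cons, outs_cons (a, _, _), outs_cons (b, none, _),
          outs_cons (a, some q, _)]
        rfl
      · have h1 := pr_copy x' ((.inl (.cell (b, none, o')) :: .inl (.cell (a, some q, o)) ::
          (cs y ++ [.inl .hash]))) (by simpa using h)
        have h2 := PReach.read h1 (Dl.ml b o' ⟨q', hq'⟩)
        have h3 := PReach.read h2 (Dl.ml' a q o ⟨q', hq'⟩ hM)
        have h4 := pr_copy y (.inl .hash :: (cs x' ++ [.inl (.cell (b, some ⟨q', hq'⟩, o'))] ++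
          [.inl (.cell (a, none, o))])) (by simpa using h3)
        have h5 := pr_hash _ h4
        simpa using h5
    | right =>
      cases y with
      | nil => simp at hly
      | cons c y =>
      obtain ⟨b, hc, o'⟩ := c
      obtain ⟨hc', hy'⟩ := noHead_cons.1 hy
      simp only at hc'
      subst hc'
      refine ⟨x ++ (a, none, o) :: (b, some ⟨q', hq'⟩, o') :: y, ?_, ?_, ?_⟩
      · refine ⟨x ++ [(a, none, o)], b, ⟨q', hq'⟩, o', y, by simp, ?_, hy', ?_, ?_, ?_⟩
        · rw [noHead_append]
          exact ⟨hx, by simp [NoHead]⟩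
        · simp only [List.length_append, List.length_singleton]
          omega
        · simp only [List.length_cons] at hly
          omega
        · simp [Tape.move]
      · rw [outs_append, outs_append, outs_cons, outs_cons (b, _, _), outs_cons (a, some q, _),
          outs_cons (b, none, _)]
        rfl
      · have h1 := pr_copy x ((.inl (.cell (a, some q, o)) :: .inl (.cell (b, none, o')) ::
          (cs y ++ [.inl .hash]))) (by simpa using h)
        have h2 := PReach.read h1 (Dl.mr a q o ⟨q', hq'⟩ hM)
        have h3 := PReach.read h2 (Dl.mr' b o' ⟨q', hq'⟩)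
        have h4 := pr_copy y (.inl .hash :: (cs x ++ [.inl (.cell (a, none, o))] ++
          [.inl (.cell (b, some ⟨q', hq'⟩, o'))])) (by simpa using h3)
        have h5 := pr_hash _ h4
        simpa using h5
  · refine ⟨x ++ (b, some ⟨q', hq'⟩, o) :: y, ?_, ?_, ?_⟩
    · refine ⟨x, b, ⟨q', hq'⟩, o, y, rfl, hx, hy, by omega, by omega, ?_⟩
      simp [Tape.write]
    · rw [outs_append, outs_append, outs_cons, outs_cons (a, _, _)]
      rfl
    · have h1 := pr_copy x (.inl (.cell (a, some q, o)) :: (cs y ++ [.inl .hash]))
        (by simpa using h)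
      have h2 := PReach.read h1 (Dl.w a q o ⟨q', hq'⟩ b hM)
      have h3 := pr_copy y (.inl .hash :: (cs x ++ [.inl (.cell (b, some ⟨q', hq'⟩, o))]))
        (by simpa using h2)
      have h4 := pr_hash _ h3
      simpa using h4

/-- reachability with a margin -/
theorem pr_run {cfg cfg' : TM0.Cfg P.Γ P.Λ} (hr : TM0.Reaches P.M cfg cfg') :
    ∃ n, ∀ k X, Rep (k + n) cfg X → PReach P [] .c (cs X ++ [.inl .hash]) →
      ∃ X', Rep k cfg' X' ∧ outs X' = outs X ∧ PReach P [] .c (cs X' ++ [.inl .hash]) := by
  induction hr with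
  | refl => exact ⟨0, fun k X h1 h2 => ⟨X, h1, rfl, h2⟩⟩
  | tail _ hs ih =>
    obtain ⟨n, hn⟩ := ih
    refine ⟨n + 1, fun k X h1 h2 => ?_⟩
    obtain ⟨X', h3, h4, h5⟩ := hn (k + 1) X (by convert h1 using 1; omega) h2
    obtain ⟨X'', h6, h7, h8⟩ := pr_step h3 hs h5
    exact ⟨X'', h6, h7.trans h4, h8⟩

/-- the final sweep -/
theorem pr_fin (X : List (Cl P)) (hX : ∀ c ∈ X, ∀ q : P.S, c.2.1 = some q → P.M q c.1 = none) :
    ∀ v : List (Ql P), PReach P [] .fin (cs X ++ v) →
      PReach P [] .fin (v ++ X.map (fun c => .inr c.2.2)) := by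
  induction X with
  | nil => intro v h; simpa using h
  | cons c X ih =>
    intro v h
    obtain ⟨a, hc, o⟩ := c
    have h1 : PReach P [] .fin ((cs X ++ v) ++ [.inr o]) := by
      cases hc with
      | none => exact PReach.read h (Dl.fc a o)
      | some q => exact PReach.read h (Dl.fh a q o (hX (a, some q, o) (by simp) q rfl))
    have h2 := ih (fun c hc => hX c (by simp [hc])) (v ++ [.inr o]) (by simpa using h1)
    simpa using h2

/-- the output phase -/
theorem pr_out (l : List (Option T)) : ∀ z, PReach P z .fin (l.map .inr) →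
    PReach P (z ++ l.reduceOption) .fin [] := by
  induction l with
  | nil => intro z h; simpa using h
  | cons o l ih =>
    intro z h
    have h1 := ih _ (PReach.pop h)
    cases o with
    | none => simpa [out, List.reduceOption_cons_of_none] using h1
    | some t => simpa [out, List.reduceOption_cons_of_some] using h1

theorem rot_complete [Finite T] {w : List T} (h : P.acc w) : w ∈ P.rot.lang := by
  obtain ⟨cfg, hcfg⟩ := Part.dom_iff_mem.1 h
  rw [StateTransition.mem_eval] at hcfg
  obtain ⟨hr, hhalt⟩ := hcfg
  obtain ⟨n, hn⟩ := pr_run hr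
  obtain ⟨X, hX, ho, hreach⟩ := hn 0 (P.iw n (n + 1) w) (rep_iw n (n + 1) w (0 + n)
    (by omega) (by omega)) (pr_iw n n w)
  rw [outs_iw] at ho
  obtain ⟨x, a, q, o, y, hXe, hx, hy, -, -, rfl⟩ := hX
  have hM : P.M q a = none := by
    simp only [TM0.step, Option.map_eq_none_iff] at hhalt
    exact hhalt
  have hh : ∀ c ∈ X, ∀ q : P.S, c.2.1 = some q → P.M q c.1 = none := by
    intro c hc q' hq'
    rw [hXe, List.mem_append, List.mem_cons] at hc
    rcases hc with hc | rfl | hc
    · rw [hx c hc] at hq'; simp at hq'
    · simp only [Option.some.injEq] at hq'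
      subst hq'
      exact hM
    · rw [hy c hc] at hq'; simp at hq'
  have h1 := pr_copy X [.inl .hash] hreach
  have h2 := PReach.read h1 Dl.f
  have h3 := pr_fin X hh _ h2
  have h4 : PReach P [] .fin ((none :: X.map (fun c => c.2.2)).map .inr) := by
    simpa [Function.comp_def] using h3
  have h5 := pr_out _ _ h4
  have h6 : (none :: X.map (fun c => c.2.2)).reduceOption = w := by
    rw [List.reduceOption_cons_of_none]
    exact ho
  rw [h6] at h5
  exact reach_of_preach h5

/-- Every recursively enumerable language is the language of a rotating queue machine. -/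
theorem exists_rot [Finite T] [Primcodable T] (L : Language T) (hL : REPred (fun w => w ∈ L)) :
    ∃ M : Rot T, M.lang = L := by
  obtain ⟨n, ⟨f⟩⟩ := Finite.exists_equiv_fin T
  let e : T → ℕ := fun a => (f a).val
  have he : Function.Injective e := fun a b h => f.injective (Fin.ext h)
  obtain ⟨Γ, Λ, iΓ, iΛ, finΓ, M, S, finS, supp, c0, c1, b0, h⟩ := exists_tm0 hL he
  let P : Prm T := ⟨Γ, Λ, iΓ, iΛ, finΓ, M, S, finS, supp, e, n, fun a => (f a).isLt.le, c0, c1, b0⟩
  refine ⟨P.rot, ?_⟩
  ext w
  exact ⟨fun hw => (h w).2 (rot_sound hw), fun hw => rot_complete (P := P) ((h w).1 hw)⟩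

/-- Every recursively enumerable language is generated by a left random context grammar. -/
theorem exists_left_grammar [Finite T] [Primcodable T] (L : Language T)
    (hL : REPred (fun w => w ∈ L)) : ∃ G : ORCGrammar T, G.PR = ∅ ∧ G.language = L := by
  obtain ⟨M, rfl⟩ := exists_rot L hL
  exact ⟨M.grammar, rfl, lang_eq M⟩

end Pool.Agent.H80.LRC
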