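import Pool.Agent.H80.LRC.Sim

/-!
# Soundness of the simulation
-/

namespace Pool.Agent.H80.LRC

open Turing Relation

variable {T : Type} {P : Prm T}

/-- accepted words -/
def Prm.acc (P : Prm T) (w : List T) : Prop :=
  (StateTransition.eval (TM0.step P.M) (TM0.init (P.tape w))).Dom

/-- Reachable configurations. -/
inductive PReach (P : Prm T) : List T → RS P → List (Ql P) → Prop
  | init (n : ℕ) : PReach P [] .i0 (List.replicate n (.inl .zero))
  | read {w : List T} {q : RS P} {c : RL P} {u : List (Ql P)} {d : Ql P} {q' : RS P} :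
      PReach P w q (.inl c :: u) → Dl P q c d q' → PReach P w q' (u ++ [d])
  | pop {w : List T} {q : RS P} {o : Option T} {u : List (Ql P)} : PReach P w q (.inr o :: u) →
      PReach P (w ++ out (Γ := RL P) (.inr o)) q u

theorem preach_of_reach [Finite T] {z : List T} {q : P.rot.Q} {u : List (P.rot.Γ ⊕ Option T)}
    (h : P.rot.Reach z q u) : PReach P z q u := by
  induction h with
  | init n => exact PReach.init n
  | read _ hδ ih => exact PReach.read ih hδ
  | pop _ ih => exact PReach.pop ih

theorem reach_of_preach [Finite T] {z : List T} {q : RS P} {u : List (Ql P)}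
    (h : PReach P z q u) : P.rot.Reach z q u := by
  induction h with
  | init n => exact Rot.Reach.init (M := P.rot) n
  | read _ hδ ih => exact Rot.Reach.read (M := P.rot) ih hδ
  | pop _ ih => exact Rot.Reach.pop (M := P.rot) ih

/-- The invariant of the rotating machine. -/
def MInv (P : Prm T) (z : List T) (q : RS P) (u : List (Ql P)) : Prop :=
  match q with
  | .i0 => z = [] ∧ ∃ n, u = List.replicate n (.inl .zero)
  | .i1 => z = [] ∧ ∃ n m, u = List.replicate n (.inl .zero) ++ .inl .hash ::
      cs (List.replicate m blk)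
  | .i2 => z = [] ∧ ∃ n m, u = List.replicate n (.inl .zero) ++ .inl .hash ::
      cs (List.replicate m blk ++ [(P.c0, some P.q0, none)])
  | .j z' => z = [] ∧ ∃ n m w, u = List.replicate n (.inl .zero) ++ .inl .hash ::
      cs (List.replicate m blk ++ (P.c0, some P.q0, none) :: ((P.c1, none, none) ::
        (P.tb w ++ List.replicate z'.val (P.b0, none, none))))
  | .k => z = [] ∧ ∃ n m m' w, u = List.replicate n (.inl .zero) ++ .inl .hash ::
      cs (P.iw m m' w)
  | .c => z = [] ∧ ∃ w x y, u = cs y ++ .inl .hash :: cs x ∧ Valid (P := P) w (x ++ y)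
  | .pr q' => z = [] ∧ ∃ w x y a, ∃ q : P.S, ∃ o, u = cs y ++ .inl .hash ::
      cs (x ++ [(a, none, o)]) ∧ P.M q a = some (q'.1, TM0.Stmt.move Dir.right) ∧
      Valid w (x ++ (a, some q, o) :: y)
  | .pl q' => z = [] ∧ ∃ w x y b o, u = cs y ++ .inl .hash ::
      cs (x ++ [(b, some q', o)]) ∧ Valid w (x ++ (b, none, o) :: y)
  | .fin => (z = [] ∧ ∃ w x y, u = cs y ++ .inr none :: x.map (fun c => .inr c.2.2) ∧
      Valid (P := P) w (x ++ y) ∧ ∀ c ∈ x, ∀ q : P.S, c.2.1 = some q → P.M q c.1 = none) ∨
      (∃ l : List (Option T), u = l.map .inr ∧ P.acc (z ++ l.reduceOption))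

theorem cs_eq_cons {c : RL P} {u : List (Ql P)} {x : List (Ql P)} {Y : List (Cl P)}
    (h : .inl c :: u = cs Y ++ .inl .hash :: x) (hc : c ≠ .hash) :
    ∃ d Y', Y = d :: Y' ∧ c = .cell d ∧ u = cs Y' ++ .inl .hash :: x := by
  cases Y with
  | nil =>
    simp only [cs_nil, List.nil_append, List.cons.injEq, Sum.inl.injEq] at h
    exact absurd h.1 hc
  | cons d Y =>
    simp only [cs_cons, List.cons_append, List.cons.injEq, Sum.inl.injEq] at h
    exact ⟨d, Y, rfl, h.1, h.2⟩

theorem hash_eq_cons {u x : List (Ql P)} {Y : List (Cl P)}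
    (h : (.inl .hash : Ql P) :: u = cs Y ++ .inl .hash :: x) : Y = [] ∧ u = x := by
  cases Y with
  | nil => simpa using h
  | cons d Y => simp at h

theorem zero_eq_cons {u x : List (Ql P)} {n : ℕ}
    (h : (.inl .zero : Ql P) :: u = List.replicate n (.inl .zero) ++ .inl .hash :: x) :
    ∃ n', u = List.replicate n' (.inl .zero) ++ .inl .hash :: x := by
  cases n with
  | zero => simp at h
  | succ n =>
    refine ⟨n, ?_⟩
    simpa [List.replicate_succ] using h

theorem reach_inv {z : List T} {q : RS P} {u : List (Ql P)}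
    (h : PReach P z q u) : MInv P z q u := by
  induction h with
  | init n => exact ⟨rfl, n, rfl⟩
  | @read z q c u d q' hr hδ ih =>
    cases hδ with
    | i0 =>
      obtain ⟨rfl, n, hn⟩ := ih
      cases n with
      | zero => simp at hn
      | succ n =>
        simp only [List.replicate_succ, List.cons.injEq, true_and] at hn
        exact ⟨rfl, n, 0, by rw [hn]; rfl⟩
    | i1 =>
      obtain ⟨rfl, n, m, hn⟩ := ih
      obtain ⟨n', rfl⟩ := zero_eq_cons hn
      refine ⟨rfl, n', m + 1, ?_⟩
      rw [List.replicate_succ' (n := m)]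
      simp [blk]
    | i1' =>
      obtain ⟨rfl, n, m, hn⟩ := ih
      obtain ⟨n', rfl⟩ := zero_eq_cons hn
      refine ⟨rfl, n', m, ?_⟩
      simp
    | i2 =>
      obtain ⟨rfl, n, m, hn⟩ := ih
      obtain ⟨n', rfl⟩ := zero_eq_cons hn
      refine ⟨rfl, n', m, [], ?_⟩
      simp [Prm.tb]
    | j0 z' hz =>
      obtain ⟨rfl, n, m, w, hn⟩ := ih
      obtain ⟨n', rfl⟩ := zero_eq_cons hn
      refine ⟨rfl, n', m, w, ?_⟩
      simp only
      rw [List.replicate_succ' (n := z')]
      simp
    | j1 a =>
      obtain ⟨rfl, n, m, w, hn⟩ := ih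
      obtain ⟨n', rfl⟩ := zero_eq_cons hn
      refine ⟨rfl, n', m, w ++ [a], ?_⟩
      simp [Prm.tb]
    | jk =>
      obtain ⟨rfl, n, m, w, hn⟩ := ih
      obtain ⟨n', rfl⟩ := zero_eq_cons hn
      refine ⟨rfl, n', m, 1, w, ?_⟩
      simp [Prm.iw, blk]
    | kk =>
      obtain ⟨rfl, n, m, m', w, hn⟩ := ih
      obtain ⟨n', rfl⟩ := zero_eq_cons hn
      refine ⟨rfl, n', m, m' + 1, w, ?_⟩
      simp only [Prm.iw]
      rw [List.replicate_succ' (n := m')]
      simp [blk]
    | kc =>
      obtain ⟨rfl, n, m, m', w, hn⟩ := ih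
      cases n with
      | succ n => simp [List.replicate_succ] at hn
      | zero =>
        simp only [List.replicate_zero, List.nil_append, List.cons.injEq, true_and] at hn
        refine ⟨rfl, w, [], P.iw m m' w, ?_, valid_iw m m' w⟩
        rw [hn]; rfl
    | cc x0 =>
      obtain ⟨rfl, w, x, y, hn, hv⟩ := ih
      obtain ⟨d, y', rfl, h1, rfl⟩ := cs_eq_cons hn (by simp)
      simp only [RL.cell.injEq] at h1
      subst h1
      refine ⟨rfl, w, x ++ [x0], y', by simp, by simpa using hv⟩
    | ch =>
      obtain ⟨rfl, w, x, y, hn, hv⟩ := ih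
      obtain ⟨rfl, rfl⟩ := hash_eq_cons hn
      refine ⟨rfl, w, [], x, by simp, by simpa using hv⟩
    | w a q o q' b h =>
      obtain ⟨rfl, w, x, y, hn, hv⟩ := ih
      obtain ⟨d, y', rfl, h1, rfl⟩ := cs_eq_cons hn (by simp)
      simp only [RL.cell.injEq] at h1
      subst h1
      refine ⟨rfl, w, x ++ [(b, some q', o)], y', by simp, ?_⟩
      simpa using valid_write h hv
    | mr a q o q' h =>
      obtain ⟨rfl, w, x, y, hn, hv⟩ := ih
      obtain ⟨d, y', rfl, h1, rfl⟩ := cs_eq_cons hn (by simp)
      simp only [RL.cell.injEq] at h1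
      subst h1
      exact ⟨rfl, w, x, y', a, q, o, by simp, h, hv⟩
    | mr' b o q' =>
      obtain ⟨rfl, w, x, y, a, q, o', hn, h, hv⟩ := ih
      obtain ⟨d, y', rfl, h1, rfl⟩ := cs_eq_cons hn (by simp)
      simp only [RL.cell.injEq] at h1
      subst h1
      refine ⟨rfl, w, x ++ [(a, none, o'), (b, some q', o)], y', by simp, ?_⟩
      simpa using valid_right h hv
    | ml b o q' =>
      obtain ⟨rfl, w, x, y, hn, hv⟩ := ih
      obtain ⟨d, y', rfl, h1, rfl⟩ := cs_eq_cons hn (by simp)
      simp only [RL.cell.injEq] at h1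
      subst h1
      exact ⟨rfl, w, x, y', b, o, by simp, hv⟩
    | ml' a q o q' h =>
      obtain ⟨rfl, w, x, y, b, o', hn, hv⟩ := ih
      obtain ⟨d, y', rfl, h1, rfl⟩ := cs_eq_cons hn (by simp)
      simp only [RL.cell.injEq] at h1
      subst h1
      refine ⟨rfl, w, x ++ [(b, some q', o'), (a, none, o)], y', by simp, ?_⟩
      simpa using valid_left h hv
    | f =>
      obtain ⟨rfl, w, x, y, hn, hv⟩ := ih
      obtain ⟨rfl, rfl⟩ := hash_eq_cons hn
      left
      exact ⟨rfl, w, [], x, by simp, by simpa using hv, by simp⟩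
    | fc a o =>
      rcases ih with ⟨rfl, w, x, y, hn, hv, hh⟩ | ⟨l, hl, -⟩
      · left
        cases y with
        | nil => simp at hn
        | cons d y =>
          simp only [cs_cons, List.cons_append, List.cons.injEq, Sum.inl.injEq,
            RL.cell.injEq] at hn
          obtain ⟨rfl, rfl⟩ := hn
          refine ⟨rfl, w, x ++ [(a, none, o)], y, by simp, by simpa using hv, ?_⟩
          intro c hc q hq
          simp only [List.mem_append, List.mem_singleton] at hc
          rcases hc with hc | rfl
          · exact hh c hc q hq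
          · simp at hq
      · cases l <;> simp at hl
    | fh a q o h =>
      rcases ih with ⟨rfl, w, x, y, hn, hv, hh⟩ | ⟨l, hl, -⟩
      · left
        cases y with
        | nil => simp at hn
        | cons d y =>
          simp only [cs_cons, List.cons_append, List.cons.injEq, Sum.inl.injEq,
            RL.cell.injEq] at hn
          obtain ⟨rfl, rfl⟩ := hn
          refine ⟨rfl, w, x ++ [(a, some q, o)], y, by simp, by simpa using hv, ?_⟩
          intro c hc q1 hq
          simp only [List.mem_append, List.mem_singleton] at hc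
          rcases hc with hc | rfl
          · exact hh c hc q1 hq
          · simp only [Option.some.injEq] at hq
            subst hq
            exact h
      · cases l <;> simp at hl
  | @pop z q o u hr ih =>
    cases q with
    | i0 =>
      obtain ⟨-, n, hn⟩ := ih
      cases n <;> simp [List.replicate_succ] at hn
    | i1 =>
      obtain ⟨-, n, m, hn⟩ := ih
      cases n <;> simp [List.replicate_succ] at hn
    | i2 =>
      obtain ⟨-, n, m, hn⟩ := ih
      cases n <;> simp [List.replicate_succ] at hn
    | j z' =>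
      obtain ⟨-, n, m, w, hn⟩ := ih
      cases n <;> simp [List.replicate_succ] at hn
    | k =>
      obtain ⟨-, n, m, m', w, hn⟩ := ih
      cases n <;> simp [List.replicate_succ] at hn
    | c =>
      obtain ⟨-, w, x, y, hn, -⟩ := ih
      cases y <;> simp at hn
    | pr q' =>
      obtain ⟨-, w, x, y, a, q, o', hn, -⟩ := ih
      cases y <;> simp at hn
    | pl q' =>
      obtain ⟨-, w, x, y, b, o', hn, -⟩ := ih
      cases y <;> simp at hn
    | fin =>
      rcases ih with ⟨rfl, w, x, y, hn, hv, hh⟩ | ⟨l, hl, hp⟩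
      · right
        cases y with
        | cons d y => simp at hn
        | nil =>
          simp only [cs_nil, List.nil_append, List.cons.injEq, Sum.inr.injEq] at hn
          obtain ⟨rfl, rfl⟩ := hn
          refine ⟨x.map (fun c => c.2.2), by simp, ?_⟩
          rw [List.append_nil] at hv
          have h1 : outs x = w := hv.1
          have h2 := valid_halt hv hh
          simp only [out, List.nil_append]
          rw [← h1] at h2
          exact h2
      · right
        cases l with
        | nil => simp at hl
        | cons o' l =>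
          simp only [List.map_cons, List.cons.injEq, Sum.inr.injEq] at hl
          obtain ⟨rfl, rfl⟩ := hl
          refine ⟨l, rfl, ?_⟩
          cases o with
          | none => simpa [out, List.reduceOption_cons_of_none] using hp
          | some t => simpa [out, List.reduceOption_cons_of_some] using hp

theorem rot_sound [Finite T] {w : List T} (h : w ∈ P.rot.lang) : P.acc w := by
  have h1 : MInv P w .fin [] := reach_inv (preach_of_reach h)
  rcases h1 with ⟨-, w', x, y, h2, -⟩ | ⟨l, hl, hp⟩
  · cases y <;> simp at h2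
  · cases l with
    | nil => simpa using hp
    | cons a l => simp at hl

end Pool.Agent.H80.LRC
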